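import Pool.Agent.Lib.MP_4eed4e_an_PD.DAlg

set_option autoImplicit false

/-!
Project P, block D, module DCM: the parameter set `CM m` and the base points.

`CM m` is defined by finitely many strict inequalities between affine functions of `c`
(`c ↦ tt c j` is a coordinate or constant, so continuous, and
`tt (a • c + b • c') j = a * tt c j + b * tt c' j` for `a + b = 1`; only `j ≤ m`, finitely many).
For the base points: `cs th (iS m) = 2`, `cs th (iX m) = √3`, `cs th (iY m) = 0`,
`cs th (iT j) = th j`, `cs th (iR j) = 1`, so `tt (cs th) j = nd th j`, `rr (cs th) j = 1`,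
`pB = (√3, 1)`, `pA = (√3, 0)`, `vert (cs th) j = (√3 * nd th j, 0)`.
-/

namespace Pool.Agent.MP4eed4eP

open Set

private theorem continuous_tt (m j : ℕ) : Continuous fun c : Par m => tt c j := by
  unfold tt
  split_ifs
  · exact continuous_apply _
  · exact continuous_const
  · exact continuous_const

private theorem tt_comb {m : ℕ} (c c' : Par m) {a b : ℝ} (hab : a + b = 1) (j : ℕ) :
    tt (a • c + b • c') j = a * tt c j + b * tt c' j := by
  unfold tt
  split_ifs
  · rfl
  · ring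
  · rw [mul_one, mul_one, hab]

private theorem pos_comb {a b x y : ℝ} (ha : 0 ≤ a) (hb : 0 ≤ b) (hab : a + b = 1) (hx : 0 < x)
    (hy : 0 < y) : 0 < a * x + b * y := by
  rcases ha.eq_or_lt with h | h
  · rw [← h, zero_add] at hab
    rw [← h, hab, zero_mul, zero_add, one_mul]
    exact hy
  · exact add_pos_of_pos_of_nonneg (mul_pos h hx) (mul_nonneg hb hy.le)

theorem isOpen_CM (m : ℕ) : IsOpen (CM m) := by
  have h1 : IsOpen {c : Par m | 0 < c (iS m)} :=
    isOpen_lt continuous_const (continuous_apply _)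
  have h2 : IsOpen {c : Par m | 0 < c (iX m) - √3 * c (iY m)} :=
    isOpen_lt continuous_const
      ((continuous_apply _).sub (continuous_const.mul (continuous_apply _)))
  have h3 : IsOpen {c : Par m | ∀ j ≤ m, tt c j < tt c (j + 1)} := by
    have h : {c : Par m | ∀ j ≤ m, tt c j < tt c (j + 1)} =
        ⋂ j ∈ Finset.range (m + 1), {c : Par m | tt c j < tt c (j + 1)} := by
      ext c
      simp only [mem_ofPred_eq, mem_iInter, Finset.mem_range, Nat.lt_succ_iff]
    rw [h]
    exact isOpen_biInter_finset fun j _ => isOpen_lt (continuous_tt m j) (continuous_tt m (j + 1))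
  have h4 : IsOpen {c : Par m | ∀ i : Fin m, 0 < c (iR i)} := by
    have h : {c : Par m | ∀ i : Fin m, 0 < c (iR i)} = ⋂ i : Fin m, {c : Par m | 0 < c (iR i)} := by
      ext c
      simp only [mem_ofPred_eq, mem_iInter]
    rw [h]
    exact isOpen_iInter_of_finite fun i => isOpen_lt continuous_const (continuous_apply _)
  exact h1.inter (h2.inter (h3.inter h4))

theorem convex_CM (m : ℕ) : Convex ℝ (CM m) := by
  intro c hc c' hc' a b ha hb hab
  obtain ⟨h1, h2, h3, h4⟩ := hc
  obtain ⟨h1', h2', h3', h4'⟩ := hc'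
  refine ⟨pos_comb ha hb hab h1 h1', ?_, fun j hj => ?_, fun i => pos_comb ha hb hab (h4 i) (h4' i)⟩
  · have h := pos_comb ha hb hab h2 h2'
    have h5 : (a • c + b • c') (iX m) - √3 * (a • c + b • c') (iY m) =
        a * (c (iX m) - √3 * c (iY m)) + b * (c' (iX m) - √3 * c' (iY m)) := by
      simp only [Pi.add_apply, Pi.smul_apply, smul_eq_mul]
      ring
    rw [h5]
    exact h
  · rw [tt_comb c c' hab, tt_comb c c' hab]
    have h := pos_comb ha hb hab (sub_pos.2 (h3 j hj)) (sub_pos.2 (h3' j hj))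
    linarith

private theorem cs_iS {m : ℕ} (th : Fin m → ℝ) : cs th (iS m) = 2 := rfl

private theorem cs_iX {m : ℕ} (th : Fin m → ℝ) : cs th (iX m) = √3 := rfl

private theorem cs_iY {m : ℕ} (th : Fin m → ℝ) : cs th (iY m) = 0 := rfl

private theorem cs_iT {m : ℕ} (th : Fin m → ℝ) (j : Fin m) : cs th (iT j) = th j := rfl

private theorem cs_iR {m : ℕ} (th : Fin m → ℝ) (j : Fin m) : cs th (iR j) = 1 := rfl

private theorem tt_cs' {m : ℕ} (th : Fin m → ℝ) (j : ℕ) : tt (cs th) j = nd th j := by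
  unfold tt nd
  split_ifs
  · rfl
  · rfl
  · rfl

private theorem nd_lt' {m : ℕ} {th : Fin m → ℝ} (h : th ∈ MK m) {i j : ℕ} (hij : i < j)
    (hj : j ≤ m + 1) : nd th i < nd th j := by
  obtain ⟨h1, h2⟩ := h
  unfold nd
  by_cases hi0 : 1 ≤ i ∧ i ≤ m
  · rw [dif_pos hi0]
    by_cases hj0 : 1 ≤ j ∧ j ≤ m
    · rw [dif_pos hj0]
      apply h1
      rw [Fin.mk_lt_mk]
      omega
    · rw [dif_neg hj0, if_neg (by omega)]
      exact (h2 _).2
  · rw [dif_neg hi0, if_pos (by omega)]
    by_cases hj0 : 1 ≤ j ∧ j ≤ m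
    · rw [dif_pos hj0]
      exact (h2 _).1
    · rw [dif_neg hj0, if_neg (by omega)]
      exact one_pos

theorem cs_mem {m : ℕ} (th : Fin m → ℝ) (h : th ∈ MK m) : cs th ∈ CM m := by
  refine ⟨?_, ?_, fun j hj => ?_, fun i => ?_⟩
  · rw [cs_iS]
    exact two_pos
  · rw [cs_iX, cs_iY, mul_zero, sub_zero]
    exact Real.sqrt_pos.2 (by norm_num)
  · rw [tt_cs', tt_cs']
    exact nd_lt' h (Nat.lt_succ_self j) (by omega)
  · rw [cs_iR]
    exact one_pos

theorem tt_cs {m : ℕ} (th : Fin m → ℝ) (j : ℕ) : tt (cs th) j = nd th j := tt_cs' th j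

theorem rr_cs {m : ℕ} (th : Fin m → ℝ) (j : ℕ) : rr (cs th) j = 1 := by
  unfold rr
  split_ifs
  · exact cs_iR th _
  · rfl

theorem pB_cs {m : ℕ} (th : Fin m → ℝ) : pB (cs th) = (√3, 1) := by
  unfold pB
  rw [cs_iS]
  apply Prod.ext
  · show (2 : ℝ) * (√3 / 2) = √3
    ring
  · show (2 : ℝ) * (1 / 2) = 1
    norm_num

theorem pA_cs {m : ℕ} (th : Fin m → ℝ) : pA (cs th) = (√3, 0) := by
  unfold pA
  rw [cs_iX, cs_iY]

theorem WW_cs {m : ℕ} (th : Fin m → ℝ) (j : ℕ) : WW (cs th) j = (√3 * nd th j - √3, -1) := by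
  unfold WW
  rw [rr_cs, tt_cs, pB_cs, pA_cs, one_smul]
  apply Prod.ext
  · simp only [Prod.fst_add, Prod.smul_fst, Prod.fst_neg, Prod.fst_sub, smul_eq_mul]
    ring
  · simp only [Prod.snd_add, Prod.smul_snd, Prod.snd_neg, Prod.snd_sub, smul_eq_mul]
    ring

theorem nd_lt {m : ℕ} {th : Fin m → ℝ} (h : th ∈ MK m) {i j : ℕ} (hij : i < j) (hj : j ≤ m + 1) :
    nd th i < nd th j := nd_lt' h hij hj

end Pool.Agent.MP4eed4eP
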