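import Pool.Agent.Lib.MP_4eed4e_an_PD.DInv

set_option autoImplicit false

/-!
Project P, block D, module DDom: the region `Dom c = Fm c '' Tri`.

* `mem_Dom_iff`: if `y = Fm c v`, `v ∈ Tri`, then `y ∈ Cone c` (`Fm_Cone`) and `Gm c y = v ∈ Tri`
  (`Gm_spec`, `Tri ⊆ Quad`). Conversely `y = Fm c (Gm c y)`.
* `isOpen_Dom`: `Cone c` is open, `Gm c` continuous, `Tri` open.
* `mem_Tri_of_Fm`: `v ∈ Quad`, `Fm c v ∈ Dom c`: `v = Gm c (Fm c v) ∈ Tri`.
* `isBounded_Dom`: `Dom c` is contained in the image of the compact closed unit square under the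
continuous   map `Fm c`.
* `isCompact_pre`: for `K ⊆ Dom c` compact the set `Tri ∩ Fm c ⁻¹' K = Gm c '' K` is compact.
* `isCompact_img`: clear.
-/

namespace Pool.Agent.MP4eed4eP

open Set

private theorem DDom_quad {v : P} (hv : v ∈ Tri) : v ∈ Quad := ⟨hv.1.le, hv.2.1.le⟩

private theorem DDom_det {f g : P → P} (hf : Continuous f) (hg : Continuous g) :
    Continuous fun y => det2 (f y) (g y) := by
  unfold det2
  fun_prop

private theorem DDom_Fm {m : ℕ} (c : Par m) : Continuous (Fm c) := by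
  unfold Fm Lj det2
  fun_prop

private theorem DDom_Gm {m : ℕ} {c : Par m} (hc : c ∈ CM m) : Continuous (Gm c) := by
  obtain ⟨K, hK⟩ := (Gm_spec hc).1
  exact hK.continuous

private theorem DDom_Tri : IsOpen Tri := by
  unfold Tri
  refine (isOpen_lt continuous_const continuous_fst).inter
    ((isOpen_lt continuous_const continuous_snd).inter
      (isOpen_lt (continuous_fst.add continuous_snd) continuous_const))

private theorem DDom_Cone {m : ℕ} (c : Par m) : IsOpen (Cone c) := by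
  unfold Cone
  exact (isOpen_lt continuous_const
    (DDom_det (continuous_id.sub continuous_const) continuous_const)).inter
    (isOpen_lt continuous_const (DDom_det continuous_const (continuous_id.sub continuous_const)))

theorem mem_Dom_iff {m : ℕ} {c : Par m} (hc : c ∈ CM m) (y : P) :
    y ∈ Dom c ↔ y ∈ Cone c ∧ Gm c y ∈ Tri := by
  obtain ⟨-, h1, h2⟩ := Gm_spec hc
  constructor
  · rintro ⟨v, hv, rfl⟩
    refine ⟨Fm_Cone hc hv.1 hv.2.1, ?_⟩
    rw [h1 v (DDom_quad hv)]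
    exact hv
  · rintro ⟨hy, hv⟩
    exact ⟨Gm c y, hv, (h2 y hy).2.2⟩

theorem isOpen_Dom {m : ℕ} {c : Par m} (hc : c ∈ CM m) : IsOpen (Dom c) := by
  have h : Dom c = Cone c ∩ Gm c ⁻¹' Tri := by
    ext y
    exact mem_Dom_iff hc y
  rw [h]
  exact (DDom_Cone c).inter (DDom_Tri.preimage (DDom_Gm hc))

theorem mem_Tri_of_Fm {m : ℕ} {c : Par m} (hc : c ∈ CM m) {v : P} (hv : v ∈ Quad)
    (h : Fm c v ∈ Dom c) : v ∈ Tri := by
  have h1 := ((mem_Dom_iff hc _).1 h).2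
  rwa [(Gm_spec hc).2.1 v hv] at h1

theorem Fm_mem_Dom {m : ℕ} (c : Par m) {v : P} (hv : v ∈ Tri) : Fm c v ∈ Dom c := ⟨v, hv, rfl⟩

theorem injOn_Fm {m : ℕ} {c : Par m} (hc : c ∈ CM m) : InjOn (Fm c) Quad := by
  intro v hv w hw h
  rw [← (Gm_spec hc).2.1 v hv, ← (Gm_spec hc).2.1 w hw, h]

theorem Gm_mem_Tri {m : ℕ} {c : Par m} (hc : c ∈ CM m) {y : P} (hy : y ∈ Dom c) :
    Gm c y ∈ Tri ∧ Fm c (Gm c y) = y := by
  obtain ⟨h1, h2⟩ := (mem_Dom_iff hc y).1 hy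
  exact ⟨h2, ((Gm_spec hc).2.2 y h1).2.2⟩

theorem isBounded_Dom {m : ℕ} (c : Par m) : Bornology.IsBounded (Dom c) := by
  have h1 : IsCompact (Icc (0 : ℝ) 1 ×ˢ Icc (0 : ℝ) 1) := isCompact_Icc.prod isCompact_Icc
  refine (h1.image (DDom_Fm c)).isBounded.subset (image_mono ?_)
  rintro v ⟨h2, h3, h4⟩
  exact ⟨⟨h2.le, by linarith⟩, ⟨h3.le, by linarith⟩⟩

theorem isCompact_pre {m : ℕ} {c : Par m} (hc : c ∈ CM m) {K : Set P} (hK : IsCompact K)
    (h : K ⊆ Dom c) : IsCompact (Tri ∩ Fm c ⁻¹' K) := by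
  have h1 : Tri ∩ Fm c ⁻¹' K = Gm c '' K := by
    ext v
    constructor
    · rintro ⟨hv, hvK⟩
      exact ⟨Fm c v, hvK, (Gm_spec hc).2.1 v (DDom_quad hv)⟩
    · rintro ⟨y, hy, rfl⟩
      obtain ⟨h2, h3⟩ := Gm_mem_Tri hc (h hy)
      refine ⟨h2, ?_⟩
      show Fm c (Gm c y) ∈ K
      rwa [h3]
  rw [h1]
  exact hK.image (DDom_Gm hc)

theorem isCompact_img {m : ℕ} (c : Par m) {K : Set P} (hK : IsCompact K) (h : K ⊆ Tri) :
    IsCompact (Fm c '' K) ∧ Fm c '' K ⊆ Dom c :=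
  ⟨hK.image (DDom_Fm c), image_mono h⟩

end Pool.Agent.MP4eed4eP
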