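import Pool.Agent.Lib.MP_4eed4e_an_PC.CBase
import Pool.Agent.Lib.MP_4eed4e_an_PD.DDom

set_option autoImplicit false

/-!
Project P, block D, module DPul: pull back of functions by the fan map.

* `lip_indicator`: let `D` be open, `K ⊆ D` compact, `g` continuous, `g` Lipschitz on `P`, `g = 0`
on   `D \ K`. Then `D.indicator g` is Lipschitz: for `x, y ∈ D` or `x, y ∉ D` clear. Let `x ∈ D`,
`y ∉ D`; if   `x ∉ K` then both values are `0`. If `x ∈ K` then `dist x y ≥ δ` for some `δ > 0`
depending only on `K, D`   (`IsCompact.exists_thickening_subset_open`) and `|g x| ≤ C` on the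
compact `K`, so   `|g x - 0| ≤ (C / δ) dist x y`.
* `lipC_pull`: `f` in `LipC (Dom c)`, `K = Tri ∩ Fm c ⁻¹' (tsupport f)` is compact
(`isCompact_pre`),   `f ∘ Fm c` is Lipschitz (`lipschitz_Fm`) and vanishes on `Tri \ K`; apply
`lip_indicator`. The support   of `pull c f` is contained in the compact (closed) set `K ⊆ Tri`.
* `lipC_push`: the same with `Gm c` (`Gm_spec`), `K = Fm c '' tsupport g` (`isCompact_img`); for
  `y ∈ Dom c`, `y ∉ K`: `Gm c y ∉ tsupport g` (`y = Fm c (Gm c y)`).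
* `pull_push`, `push_pull`: from `Gm c (Fm c v) = v` on `Quad ⊇ Tri`, `Fm c (Gm c y) = y` on `Dom
c`, and   the functions vanish off `Tri`, `Dom c`.
-/

namespace Pool.Agent.MP4eed4eP

open MeasureTheory Set Filter Topology

theorem lip_indicator {D K : Set P} (hD : IsOpen D) (hK : IsCompact K) (hKD : K ⊆ D) {g : P → ℝ}
    (hg : ∃ C, LipschitzWith C g) (h0 : ∀ x ∈ D, x ∉ K → g x = 0) :
    ∃ C, LipschitzWith C (D.indicator g) := by
  obtain ⟨C, hC⟩ := hg
  obtain ⟨δ, hδ, hth⟩ := hK.exists_thickening_subset_open hD hKD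
  obtain ⟨M, hM⟩ := hK.exists_bound_of_continuousOn hC.continuous.continuousOn
  have hM0 : ∀ x ∈ K, 0 ≤ M := fun x hx => (norm_nonneg _).trans (hM x hx)
  have key : ∀ x ∈ D, ∀ y, y ∉ D → |g x| ≤ ((C : ℝ) + |M| / δ) * dist x y := by
    intro x hx y hy
    by_cases hxK : x ∈ K
    · have h1 : δ ≤ dist x y := by
        by_contra h2
        push Not at h2
        exact hy (hth (Metric.mem_thickening_iff.2 ⟨x, hxK, by rwa [dist_comm]⟩))
      have h2 : |g x| ≤ |M| := (hM x hxK).trans (le_abs_self M)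
      have h3 : |M| ≤ |M| / δ * dist x y := by
        rw [div_mul_eq_mul_div, le_div_iff₀ hδ]
        exact mul_le_mul_of_nonneg_left h1 (abs_nonneg M)
      have h4 : 0 ≤ (C : ℝ) * dist x y := mul_nonneg C.2 dist_nonneg
      rw [add_mul]
      linarith
    · rw [h0 x hx hxK, abs_zero]
      have h4 : 0 ≤ |M| / δ := div_nonneg (abs_nonneg M) hδ.le
      exact mul_nonneg (add_nonneg C.2 h4) dist_nonneg
  refine ⟨_, LipschitzWith.of_dist_le' (K := (C : ℝ) + |M| / δ) fun x y => ?_⟩
  by_cases hx : x ∈ D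
  · by_cases hy : y ∈ D
    · rw [indicator_of_mem hx, indicator_of_mem hy]
      refine (hC.dist_le_mul x y).trans (mul_le_mul_of_nonneg_right ?_ dist_nonneg)
      have h4 : 0 ≤ |M| / δ := div_nonneg (abs_nonneg M) hδ.le
      linarith
    · rw [indicator_of_mem hx, indicator_of_notMem hy, Real.dist_eq, sub_zero]
      exact key x hx y hy
  · by_cases hy : y ∈ D
    · rw [indicator_of_notMem hx, indicator_of_mem hy, dist_comm, Real.dist_eq, sub_zero,
        dist_comm x y]
      exact key y hy x hx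
    · rw [indicator_of_notMem hx, indicator_of_notMem hy, dist_self]
      have h4 : 0 ≤ |M| / δ := div_nonneg (abs_nonneg M) hδ.le
      exact mul_nonneg (add_nonneg C.2 h4) dist_nonneg

private theorem lipC_indicator {D K : Set P} (hD : IsOpen D) (hK : IsCompact K) (hKD : K ⊆ D)
    {g : P → ℝ} (hg : ∃ C, LipschitzWith C g) (h0 : ∀ x ∈ D, x ∉ K → g x = 0) :
    LipC D (D.indicator g) := by
  have hz : ∀ x, x ∉ K → D.indicator g x = 0 := by
    intro x hx
    by_cases hxD : x ∈ D
    · rw [indicator_of_mem hxD, h0 x hxD hx]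
    · rw [indicator_of_notMem hxD]
  refine ⟨lip_indicator hD hK hKD hg h0, HasCompactSupport.intro hK hz, ?_⟩
  refine (closure_minimal (fun x hx => ?_) hK.isClosed).trans hKD
  by_contra h1
  exact hx (hz x h1)

/-- Pull back to the reference triangle. -/
noncomputable def pull {m : ℕ} (c : Par m) (f : P → ℝ) : P → ℝ :=
  Tri.indicator (fun v => f (Fm c v))

/-- Push forward to the region `Dom c`. -/
noncomputable def push {m : ℕ} (c : Par m) (g : P → ℝ) : P → ℝ :=
  (Dom c).indicator (fun y => g (Gm c y))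

theorem pull_add {m : ℕ} (c : Par m) (f g : P → ℝ) : pull c (f + g) = pull c f + pull c g := by
  ext v
  by_cases h : v ∈ Tri <;> simp [pull, h]

theorem pull_smul {m : ℕ} (c : Par m) (r : ℝ) (f : P → ℝ) : pull c (r • f) = r • pull c f := by
  ext v
  by_cases h : v ∈ Tri <;> simp [pull, h]

theorem lipC_pull {m : ℕ} {c : Par m} (hc : c ∈ CM m) {f : P → ℝ} (hf : LipC (Dom c) f) :
    LipC Tri (pull c f) := by
  obtain ⟨⟨C, hC⟩, h1, h2⟩ := hf
  obtain ⟨C', hC'⟩ := lipschitz_Fm c
  refine lipC_indicator isOpen_Tri (isCompact_pre hc h1.isCompact h2) inter_subset_left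
    ⟨C * C', hC.comp hC'⟩ fun x hx hxK => ?_
  refine image_eq_zero_of_notMem_tsupport fun h3 => hxK ⟨hx, h3⟩

theorem lipC_push {m : ℕ} {c : Par m} (hc : c ∈ CM m) {g : P → ℝ} (hg : LipC Tri g) :
    LipC (Dom c) (push c g) := by
  obtain ⟨⟨C, hC⟩, h1, h2⟩ := hg
  obtain ⟨C', hC'⟩ := (Gm_spec hc).1
  obtain ⟨h3, h4⟩ := isCompact_img c h1.isCompact h2
  refine lipC_indicator (isOpen_Dom hc) h3 h4 ⟨C * C', hC.comp hC'⟩ fun y hy hyK => ?_
  refine image_eq_zero_of_notMem_tsupport fun h5 => hyK ⟨Gm c y, h5, (Gm_mem_Tri hc hy).2⟩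

theorem pull_push {m : ℕ} {c : Par m} (hc : c ∈ CM m) {g : P → ℝ} (hg : LipC Tri g) :
    pull c (push c g) = g := by
  funext v
  by_cases hv : v ∈ Tri
  · have h1 : pull c (push c g) v = push c g (Fm c v) := indicator_of_mem hv _
    have h2 : push c g (Fm c v) = g (Gm c (Fm c v)) := indicator_of_mem (Fm_mem_Dom c hv) _
    rw [h1, h2, (Gm_spec hc).2.1 v (Tri_subset_Quad hv)]
  · have h1 : pull c (push c g) v = 0 := indicator_of_notMem hv _
    rw [h1, image_eq_zero_of_notMem_tsupport fun h3 => hv (hg.2.2 h3)]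

theorem push_pull {m : ℕ} {c : Par m} (hc : c ∈ CM m) {f : P → ℝ} (hf : LipC (Dom c) f) :
    push c (pull c f) = f := by
  funext y
  by_cases hy : y ∈ Dom c
  · obtain ⟨h1, h2⟩ := Gm_mem_Tri hc hy
    have h3 : push c (pull c f) y = pull c f (Gm c y) := indicator_of_mem hy _
    have h4 : pull c f (Gm c y) = f (Fm c (Gm c y)) := indicator_of_mem h1 _
    rw [h3, h4, h2]
  · have h1 : push c (pull c f) y = 0 := indicator_of_notMem hy _
    rw [h1, image_eq_zero_of_notMem_tsupport fun h3 => hy (hf.2.2 h3)]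

end Pool.Agent.MP4eed4eP
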