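import Pool.Agent.Lib.MP_4eed4e_an_PD.DVar
import Pool.Agent.Lib.MP_4eed4e_an_PD.DPul

set_option autoImplicit false

/-!
Project P, block D, module DGra: gradients and the fan map.

On the open set `Sec m j` the map `Fm c` is `v ↦ pB c + Lj c j v` (`Fm_Sec`), and `Lj c j` is
linear with `Lj c j (1, 0) = La c j`, `Lj c j (0, 1) = Lb c j`; so for `f` differentiable at `Fm c
v` the chain rule gives the derivative of `f ∘ Fm c` at `v ∈ Sec m j` (the functions agree near
`v`), and `fderiv ℝ f y w = w.1 d1 f y + w.2 d2 f y`. The function `pull c f` agrees with `f ∘ Fm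
c` on the open set `Tri`. -/

namespace Pool.Agent.MP4eed4eP

open MeasureTheory Set Filter Topology

theorem fderiv_apply_eq (f : P → ℝ) (y w : P) :
    fderiv ℝ f y w = w.1 * d1 f y + w.2 * d2 f y := by
  have h : w = w.1 • ((1, 0) : P) + w.2 • ((0, 1) : P) := by
    ext <;> simp
  conv_lhs => rw [h]
  rw [map_add, map_smul, map_smul, smul_eq_mul, smul_eq_mul, d1, d2]

private theorem dg_hasFDerivAt {m : ℕ} (c : Par m) {j : ℕ} (hj : j ≤ m) {v : P}
    (hv : v ∈ Sec m j) :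
    HasFDerivAt (Fm c) ((ContinuousLinearMap.fst ℝ ℝ ℝ).smulRight (La c j) +
      (ContinuousLinearMap.snd ℝ ℝ ℝ).smulRight (Lb c j)) v := by
  have h1 : HasFDerivAt (fun w : P => pB c + ((ContinuousLinearMap.fst ℝ ℝ ℝ).smulRight (La c j) +
      (ContinuousLinearMap.snd ℝ ℝ ℝ).smulRight (Lb c j)) w)
      ((ContinuousLinearMap.fst ℝ ℝ ℝ).smulRight (La c j) +
      (ContinuousLinearMap.snd ℝ ℝ ℝ).smulRight (Lb c j)) v :=
    (ContinuousLinearMap.hasFDerivAt _).const_add _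
  refine h1.congr_of_eventuallyEq ?_
  filter_upwards [(isOpen_Sec m j).mem_nhds hv] with w hw
  exact Fm_Sec c hj hw

private theorem dg_fderiv {m : ℕ} (c : Par m) {j : ℕ} (hj : j ≤ m) {v : P} (hv : v ∈ Sec m j)
    {f : P → ℝ} (hf : DifferentiableAt ℝ f (Fm c v)) (w : P) :
    fderiv ℝ (fun v => f (Fm c v)) v w = fderiv ℝ f (Fm c v) (w.1 • La c j + w.2 • Lb c j) := by
  have h1 := hf.hasFDerivAt.comp v (dg_hasFDerivAt c hj hv)
  have h2 : fderiv ℝ (fun v => f (Fm c v)) v = _ := h1.fderiv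
  rw [h2]
  rfl

theorem d1_Fm {m : ℕ} (c : Par m) {j : ℕ} (hj : j ≤ m) {v : P} (hv : v ∈ Sec m j) {f : P → ℝ}
    (hf : DifferentiableAt ℝ f (Fm c v)) :
    d1 (fun v => f (Fm c v)) v = (La c j).1 * d1 f (Fm c v) + (La c j).2 * d2 f (Fm c v) := by
  rw [← fderiv_apply_eq, d1, dg_fderiv c hj hv hf]
  simp

theorem d2_Fm {m : ℕ} (c : Par m) {j : ℕ} (hj : j ≤ m) {v : P} (hv : v ∈ Sec m j) {f : P → ℝ}
    (hf : DifferentiableAt ℝ f (Fm c v)) :
    d2 (fun v => f (Fm c v)) v = (Lb c j).1 * d1 f (Fm c v) + (Lb c j).2 * d2 f (Fm c v) := by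
  rw [← fderiv_apply_eq, d2, dg_fderiv c hj hv hf]
  simp

private theorem dg_isOpen_Tri : IsOpen Tri := by
  have h1 : IsOpen {v : P | 0 < v.1} := isOpen_lt continuous_const continuous_fst
  have h2 : IsOpen {v : P | 0 < v.2} := isOpen_lt continuous_const continuous_snd
  have h3 : IsOpen {v : P | v.1 + v.2 < 1} :=
    isOpen_lt (continuous_fst.add continuous_snd) continuous_const
  exact h1.inter (h2.inter h3)

private theorem dg_pull {m : ℕ} (c : Par m) (f : P → ℝ) {v : P} (hv : v ∈ Tri) :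
    fderiv ℝ (pull c f) v = fderiv ℝ (fun v => f (Fm c v)) v := by
  apply Filter.EventuallyEq.fderiv_eq
  filter_upwards [dg_isOpen_Tri.mem_nhds hv] with w hw
  rw [pull, indicator_of_mem hw]

theorem d1_pull {m : ℕ} (c : Par m) (f : P → ℝ) {v : P} (hv : v ∈ Tri) :
    d1 (pull c f) v = d1 (fun v => f (Fm c v)) v := by
  rw [d1, d1, dg_pull c f hv]

theorem d2_pull {m : ℕ} (c : Par m) (f : P → ℝ) {v : P} (hv : v ∈ Tri) :
    d2 (pull c f) v = d2 (fun v => f (Fm c v)) v := by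
  rw [d2, d2, dg_pull c f hv]

end Pool.Agent.MP4eed4eP
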