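import Pool.Agent.Lib.MP_4eed4e_an_PD.DDom
import Pool.Agent.Lib.MP_4eed4e_an_PD.DCM

set_option autoImplicit false

/-!
Project P, block D, module DTri: at the base points the region is the 30-60-90 triangle `T0`.

`c = cs th`, `pB = (√3, 1)`, `WW c j = (√3 nd j - √3, -1)` (`WW_cs`). So for `v ∈ CS m j`:
`Fm c v = pB + α W_j + β W_{j+1}`, `α + β = v.1 + v.2`, has second coordinate `1 - (v.1 + v.2)`.
`det2 (y - pB) (pA - pB) = √3 - y.1` (`pA - pB = (0, -1)`: `det2 (a, b) (0, -1) = -a`), and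
`det2 (-pB) (y - pB) = -√3 (y.2 - 1) + (y.1 - √3) = y.1 - √3 y.2`. So `Cone c` is the set
`y.1 < √3`, `√3 y.2 < y.1`, and `Dom c = {y ∈ Cone c | v.1 + v.2 < 1, v = Gm c y} = {y ∈ Cone c | 0
< y.2}` (`mem_Dom_iff`, `Gm_spec`).
-/

namespace Pool.Agent.MP4eed4eP

open Set

theorem Fm_cs_snd {m : ℕ} {th : Fin m → ℝ} {v : P} (hv : v ∈ Quad) :
    (Fm (cs th) v).2 = 1 - (v.1 + v.2) := by
  obtain ⟨j, hj, hvj⟩ := exists_CS m hv
  rw [Fm_CS (cs th) hj hvj, Lj_eq, WW_cs, WW_cs, pB_cs, t0_succ]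
  have hm : (m : ℝ) + 1 ≠ 0 := by positivity
  simp only [Prod.smul_mk, Prod.mk_add_mk, smul_eq_mul]
  field_simp
  ring

/-- The cone of the base points. -/
private theorem dtri_cone {m : ℕ} (th : Fin m → ℝ) (y : P) :
    y ∈ Cone (cs th) ↔ y.1 < √3 ∧ √3 * y.2 < y.1 := by
  have h1 : det2 (y - pB (cs th)) (pA (cs th) - pB (cs th)) = √3 - y.1 := by
    rw [pB_cs, pA_cs]
    simp only [det2, Prod.fst_sub, Prod.snd_sub]
    ring
  have h2 : det2 (-pB (cs th)) (y - pB (cs th)) = y.1 - √3 * y.2 := by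
    rw [pB_cs]
    simp only [det2, Prod.fst_sub, Prod.snd_sub, Prod.fst_neg, Prod.snd_neg]
    ring
  unfold Cone
  rw [mem_setOf_eq, h1, h2, sub_pos, sub_pos]

theorem Dom_cs {m : ℕ} (th : Fin m → ℝ) (h : th ∈ MK m) : Dom (cs th) = T0 := by
  have hc := cs_mem th h
  ext y
  rw [mem_Dom_iff hc, dtri_cone]
  constructor
  · rintro ⟨⟨h1, h2⟩, h3⟩
    obtain ⟨-, -, h4⟩ := Gm_spec hc
    obtain ⟨-, -, h5⟩ := h4 y ((dtri_cone th y).2 ⟨h1, h2⟩)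
    have h6 := Fm_cs_snd (th := th) (Tri_subset_Quad h3)
    rw [h5] at h6
    refine ⟨?_, h2, h1⟩
    have h7 := h3.2.2
    linarith
  · rintro ⟨h1, h2, h3⟩
    obtain ⟨-, -, h4⟩ := Gm_spec hc
    obtain ⟨h5, h6, h7⟩ := h4 y ((dtri_cone th y).2 ⟨h3, h2⟩)
    have h8 := Fm_cs_snd (th := th) (v := Gm (cs th) y) ⟨h5.le, h6.le⟩
    rw [h7] at h8
    exact ⟨⟨h3, h2⟩, h5, h6, by linarith⟩

end Pool.Agent.MP4eed4eP
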