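import Pool.Agent.Lib.MP_4eed4e_an_PD.DOp
import Pool.Agent.Lib.MP_4eed4e_an_PC.CForm

set_option autoImplicit false

/-!
Project P, block D, module DLam: the min-max values of `Dom c` are those of the operators.

PROOF. Let `Φ : LipS (Dom c) → HH`, `Φ f = gH ⟨pull c f, lipC_pull hc f.2⟩`: linear (`pull_add`,
`pull_smul`, `grdT` is linear). `ioT (Φ f) = valT (pull c f) = clT (pull c f)` (`ioT_gH`), so `Φ`
is injective: if `clT (pull c f) = 0` then the continuous function `pull c f` vanishes almost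
everywhere on the open set `Tri`, hence everywhere on `Tri`, and off `Tri`; so `f = push c (pull c
f) = 0` (`push_pull`). The range of `Φ` is `GG` (`mem_GG`, `pull_push`: `gH g = Φ (push c g)`). By
`en_eq_aform`, `inner_MM`, `inner_AA`: `en f = ⟨AA c (Φ f), Φ f⟩`, and by `l2_eq_bform`, `RT_sq`:
`l2 f = ‖RT c (ioT (Φ f))‖²`. If `V ≤ (P → ℝ)` is a subspace with `V ≤ LipS (Dom c)` then its image
`V'` under `Φ` (`Submodule.comap` to `LipS`, then `map Φ`) is a subspace of `GG` with the same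
`finrank`, and every subspace `V' ≤ GG` is such an image (`Submodule.map` of the comap, `Φ`
injective; then push forward along `LipS.subtype`). So the two sets of real numbers are equal. (For
`k = 0` no special treatment is needed.) -/

namespace Pool.Agent.MP4eed4eP

open MeasureTheory Set Filter Topology

/-- The pull back followed by the gradient. -/
private noncomputable def PhiL {m : ℕ} {c : Par m} (hc : c ∈ CM m) :
    LipS (Dom c) →ₗ[ℝ] HH where
  toFun f := gH ⟨pull c f.1, lipC_pull hc f.2⟩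
  map_add' f g := by
    have h : (⟨pull c (f + g).1, lipC_pull hc (f + g).2⟩ : LipS Tri) =
        ⟨pull c f.1, lipC_pull hc f.2⟩ + ⟨pull c g.1, lipC_pull hc g.2⟩ :=
      Subtype.ext (pull_add c f.1 g.1)
    rw [h]
    exact Subtype.ext (map_add grdT _ _)
  map_smul' r f := by
    have h : (⟨pull c (r • f).1, lipC_pull hc (r • f).2⟩ : LipS Tri) =
        r • ⟨pull c f.1, lipC_pull hc f.2⟩ :=
      Subtype.ext (pull_smul c r f.1)
    rw [h]
    exact Subtype.ext (map_smul grdT _ _)

private theorem PhiL_apply {m : ℕ} {c : Par m} (hc : c ∈ CM m) (f : LipS (Dom c)) :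
    PhiL hc f = gH ⟨pull c f.1, lipC_pull hc f.2⟩ := rfl

private theorem PhiL_en {m : ℕ} {c : Par m} (hc : c ∈ CM m) (f : LipS (Dom c)) :
    (inner ℝ (AA c (PhiL hc f)) (PhiL hc f) : ℝ) = en f.1 := by
  obtain ⟨⟨K, hK⟩, -, -⟩ := lipC_pull hc f.2
  rw [inner_AA, en_eq_aform hc f.2]
  exact inner_MM c (memLp_d1 hK) (memLp_d2 hK) (memLp_d1 hK) (memLp_d2 hK)

private theorem PhiL_l2 {m : ℕ} {c : Par m} (hc : c ∈ CM m) (f : LipS (Dom c)) :
    ‖RT c (ioT (PhiL hc f))‖ ^ 2 = l2 f.1 := by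
  rw [PhiL_apply, ioT_gH, l2_eq_bform hc f.2]
  exact RT_sq hc (lipC_pull hc f.2).memLp

private theorem PhiL_inj {m : ℕ} {c : Par m} (hc : c ∈ CM m) :
    Function.Injective (PhiL hc) := by
  rw [← LinearMap.ker_eq_bot, LinearMap.ker_eq_bot']
  intro f hf
  by_contra hne
  have h1 : f.1 ≠ 0 := fun h => hne (Subtype.ext h)
  have h2 := l2_pos f.2 h1
  rw [← PhiL_l2 hc f, hf, map_zero, map_zero, norm_zero] at h2
  norm_num at h2

private theorem PhiL_range {m : ℕ} {c : Par m} (hc : c ∈ CM m) :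
    LinearMap.range (PhiL hc) = GG := by
  ext g
  rw [mem_GG, LinearMap.mem_range]
  constructor
  · rintro ⟨f, rfl⟩
    exact ⟨_, (PhiL_apply hc f).symm⟩
  · rintro ⟨p, rfl⟩
    refine ⟨⟨push c p.1, lipC_push hc p.2⟩, ?_⟩
    rw [PhiL_apply]
    congr 1
    exact Subtype.ext (pull_push hc p.2)

theorem lamL_Dom_eq {m : ℕ} {c : Par m} (hc : c ∈ CM m) (k : ℕ) :
    lamL (Dom c) k = PA.mm ioT (AA c) (RT c) GG k := by
  unfold lamL PA.mm
  congr 1
  ext r
  constructor
  · rintro ⟨V, hV, h⟩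
    have hle : V ≤ LipS (Dom c) := fun f hf => (h f hf).1
    refine ⟨(V.comap (LipS (Dom c)).subtype).map (PhiL hc), ?_, ?_, ?_⟩
    · rw [← PhiL_range hc]
      exact LinearMap.map_le_range
    · rw [← hV, ← (Submodule.equivMapOfInjective (PhiL hc) (PhiL_inj hc)
        (V.comap (LipS (Dom c)).subtype)).finrank_eq]
      exact (Submodule.comapSubtypeEquivOfLe hle).finrank_eq
    · rintro w ⟨f, hf, rfl⟩
      rw [PhiL_en hc f, PhiL_l2 hc f]
      exact (h f.1 hf).2
  · rintro ⟨V, hV, hk, h⟩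
    refine ⟨(V.comap (PhiL hc)).map (LipS (Dom c)).subtype, ?_, ?_⟩
    · rw [← (Submodule.equivMapOfInjective (LipS (Dom c)).subtype
        (LipS (Dom c)).injective_subtype (V.comap (PhiL hc))).finrank_eq,
        (Submodule.equivMapOfInjective (PhiL hc) (PhiL_inj hc)
        (V.comap (PhiL hc))).finrank_eq, Submodule.map_comap_eq_self, hk]
      rw [PhiL_range hc]
      exact hV
    · rintro f ⟨f', hf', rfl⟩
      refine ⟨f'.2, ?_⟩
      have h1 := h (PhiL hc f') hf'
      rw [PhiL_en hc f', PhiL_l2 hc f'] at h1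
      exact h1

end Pool.Agent.MP4eed4eP
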