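import Pool.Agent.Lib.MP_4eed4e_an_PD.DGra

set_option autoImplicit false

/-!
Project P, block D, module DFrm: the forms on the reference triangle.

`energy_pull`: by `integral_Dom` the left side is `∑_j J_j ∫_{Sec j} (d1 f d1 g + d2 f d2 g) ∘ Fm
c` (the integrand is bounded and measurable, `Dom c` is bounded). For almost every `v ∈ Sec m j`
both functions are differentiable at `Fm c v` (`ae_Fm`, Rademacher). With `a = La`, `b = Lb`, `(p,
q)` the gradient of `f`, `(r, s)` the gradient of `g` at `Fm c v`: `F1 = a.1 p + a.2 q`, `F2 = b.1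
p + b.2 q`, the same for `G1, G2` (`d1_Fm`, `d2_Fm`), and with `J = a.1 b.2 - a.2 b.1`:
`J² (p r + q s) = |b|² F1 G1 - (a.b) (F1 G2 + F2 G1) + |a|² F2 G2` (`ring`; Cramer:
`J p = b.2 F1 - a.2 F2`, `J q = a.1 F2 - b.1 F1`). `mass_pull`: `integral_Dom`.
`en_eq_aform`: `f` and its derivatives vanish off `Dom c`, so `en f` is an integral over `Dom c`;
and `d1 (pull c f) = d1 (f ∘ Fm c)` on `Tri ⊇ Sec m j`. `l2_eq_bform`: the same.
-/

namespace Pool.Agent.MP4eed4eP

open MeasureTheory Set Filter Topology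

/-- Scalar product of two vectors of the plane. -/
def dot (v w : P) : ℝ := v.1 * w.1 + v.2 * w.2

/-- Coefficients of the forms. -/
noncomputable def m11 {m : ℕ} (c : Par m) (j : ℕ) : ℝ := dot (Lb c j) (Lb c j) / Jj c j

/-- Coefficients of the forms. -/
noncomputable def m12 {m : ℕ} (c : Par m) (j : ℕ) : ℝ := -dot (La c j) (Lb c j) / Jj c j

/-- Coefficients of the forms. -/
noncomputable def m22 {m : ℕ} (c : Par m) (j : ℕ) : ℝ := dot (La c j) (La c j) / Jj c j

/-- The energy form on the reference triangle (for pairs of functions). -/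
noncomputable def aform {m : ℕ} (c : Par m) (f1 f2 g1 g2 : P → ℝ) : ℝ :=
  ∑ j : Fin (m + 1), ∫ v in Sec m j, (m11 c j * (f1 v * g1 v) +
    m12 c j * (f1 v * g2 v + f2 v * g1 v) + m22 c j * (f2 v * g2 v))

/-- The mass form on the reference triangle. -/
noncomputable def bform {m : ℕ} (c : Par m) (f g : P → ℝ) : ℝ :=
  ∑ j : Fin (m + 1), Jj c j * ∫ v in Sec m j, f v * g v

private theorem dfrm_fin {m : ℕ} (c : Par m) : volume (Dom c) ≠ ⊤ :=
  (isBounded_Dom c).measure_lt_top.ne

private theorem dfrm_int {m : ℕ} (c : Par m) {f g : P → ℝ} {K K' : NNReal}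
    (hf : LipschitzWith K f) (hg : LipschitzWith K' g) :
    IntegrableOn (fun y => d1 f y * d1 g y + d2 f y * d2 g y) (Dom c) := by
  refine Measure.integrableOn_of_bounded (M := K * K' + K * K') (dfrm_fin c) ?_ ?_
  · exact (((measurable_d1 f).mul (measurable_d1 g)).add
      ((measurable_d2 f).mul (measurable_d2 g))).aestronglyMeasurable
  · refine Eventually.of_forall fun y => ?_
    rw [Real.norm_eq_abs]
    refine (abs_add_le _ _).trans (add_le_add ?_ ?_)
    · rw [abs_mul]
      exact mul_le_mul (abs_d1_le hf y) (abs_d1_le hg y) (abs_nonneg _) K.coe_nonneg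
    · rw [abs_mul]
      exact mul_le_mul (abs_d2_le hf y) (abs_d2_le hg y) (abs_nonneg _) K.coe_nonneg

private theorem dfrm_alg {m : ℕ} (c : Par m) (j : ℕ) (hJ : Jj c j ≠ 0) (p q r s : ℝ) :
    Jj c j * (p * r + q * s) =
      m11 c j * (((La c j).1 * p + (La c j).2 * q) * ((La c j).1 * r + (La c j).2 * s)) +
      m12 c j * (((La c j).1 * p + (La c j).2 * q) * ((Lb c j).1 * r + (Lb c j).2 * s) +
        ((Lb c j).1 * p + (Lb c j).2 * q) * ((La c j).1 * r + (La c j).2 * s)) +
      m22 c j * (((Lb c j).1 * p + (Lb c j).2 * q) * ((Lb c j).1 * r + (Lb c j).2 * s)) := by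
  have h : Jj c j = (La c j).1 * (Lb c j).2 - (La c j).2 * (Lb c j).1 := rfl
  have h1 : Jj c j * m11 c j = dot (Lb c j) (Lb c j) := by
    rw [m11, mul_div_cancel₀ _ hJ]
  have h2 : Jj c j * m12 c j = -dot (La c j) (Lb c j) := by
    rw [m12, mul_div_cancel₀ _ hJ]
  have h3 : Jj c j * m22 c j = dot (La c j) (La c j) := by
    rw [m22, mul_div_cancel₀ _ hJ]
  apply mul_left_cancel₀ hJ
  have e : Jj c j * (m11 c j * (((La c j).1 * p + (La c j).2 * q) *
      ((La c j).1 * r + (La c j).2 * s)) +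
      m12 c j * (((La c j).1 * p + (La c j).2 * q) * ((Lb c j).1 * r + (Lb c j).2 * s) +
        ((Lb c j).1 * p + (Lb c j).2 * q) * ((La c j).1 * r + (La c j).2 * s)) +
      m22 c j * (((Lb c j).1 * p + (Lb c j).2 * q) * ((Lb c j).1 * r + (Lb c j).2 * s))) =
      (Jj c j * m11 c j) * (((La c j).1 * p + (La c j).2 * q) *
        ((La c j).1 * r + (La c j).2 * s)) +
      (Jj c j * m12 c j) * (((La c j).1 * p + (La c j).2 * q) *
        ((Lb c j).1 * r + (Lb c j).2 * s) +
        ((Lb c j).1 * p + (Lb c j).2 * q) * ((La c j).1 * r + (La c j).2 * s)) +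
      (Jj c j * m22 c j) * (((Lb c j).1 * p + (Lb c j).2 * q) *
        ((Lb c j).1 * r + (Lb c j).2 * s)) := by
    ring
  rw [e, h1, h2, h3, h, dot, dot, dot]
  ring

theorem energy_pull {m : ℕ} {c : Par m} (hc : c ∈ CM m) {f g : P → ℝ}
    (hf : ∃ K, LipschitzWith K f) (hg : ∃ K, LipschitzWith K g) :
    ∫ y in Dom c, (d1 f y * d1 g y + d2 f y * d2 g y) =
      aform c (d1 (fun v => f (Fm c v))) (d2 (fun v => f (Fm c v)))
        (d1 (fun v => g (Fm c v))) (d2 (fun v => g (Fm c v))) := by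
  obtain ⟨K, hK⟩ := hf
  obtain ⟨K', hK'⟩ := hg
  rw [integral_Dom hc _ (dfrm_int c hK hK'), aform]
  refine Finset.sum_congr rfl fun j _ => ?_
  have hj : (j : ℕ) ≤ m := Nat.lt_succ_iff.1 j.2
  have hJ := (Jj_pos hc hj).ne'
  rw [← integral_const_mul]
  refine integral_congr_ae ?_
  filter_upwards [ae_Fm hc hj (ae_diff hK), ae_Fm hc hj (ae_diff hK'),
    ae_restrict_mem (measurableSet_Sec m j)] with v h1 h2 h3
  rw [d1_Fm c hj h3 h1, d2_Fm c hj h3 h1, d1_Fm c hj h3 h2, d2_Fm c hj h3 h2]
  exact dfrm_alg c j hJ _ _ _ _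

theorem mass_pull {m : ℕ} {c : Par m} (hc : c ∈ CM m) {f g : P → ℝ}
    (hf : Continuous f) (hg : Continuous g) :
    ∫ y in Dom c, f y * g y = bform c (fun v => f (Fm c v)) (fun v => g (Fm c v)) := by
  have hi : IntegrableOn (fun y => f y * g y) (Dom c) := by
    have h1 : IsCompact (closure (Dom c)) := (isBounded_Dom c).isCompact_closure
    exact ((hf.mul hg).continuousOn.integrableOn_compact h1).mono_set subset_closure
  rw [integral_Dom hc _ hi, bform]

theorem en_eq_aform {m : ℕ} {c : Par m} (hc : c ∈ CM m) {f : P → ℝ} (hf : LipC (Dom c) f) :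
    en f = aform c (d1 (pull c f)) (d2 (pull c f)) (d1 (pull c f)) (d2 (pull c f)) := by
  have h1 : en f = ∫ y in Dom c, (d1 f y * d1 f y + d2 f y * d2 f y) := by
    rw [en, ← setIntegral_eq_integral_of_forall_compl_eq_zero (s := Dom c)]
    · refine integral_congr_ae (Eventually.of_forall fun y => ?_)
      dsimp only
      ring
    · intro x hx
      have h2 : x ∉ tsupport f := fun h => hx (hf.2.2 h)
      rw [d1_zero_of_notMem h2, d2_zero_of_notMem h2]
      norm_num
  rw [h1, energy_pull hc hf.1 hf.1, aform, aform]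
  refine Finset.sum_congr rfl fun j _ => ?_
  refine setIntegral_congr_fun (measurableSet_Sec m j) fun v hv => ?_
  rw [d1_pull c f (Sec_subset_Tri m j hv), d2_pull c f (Sec_subset_Tri m j hv)]

theorem l2_eq_bform {m : ℕ} {c : Par m} (hc : c ∈ CM m) {f : P → ℝ} (hf : LipC (Dom c) f) :
    l2 f = bform c (pull c f) (pull c f) := by
  have h1 : l2 f = ∫ y in Dom c, f y * f y := by
    rw [l2, ← setIntegral_eq_integral_of_forall_compl_eq_zero (s := Dom c)]
    · refine integral_congr_ae (Eventually.of_forall fun y => ?_)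
      dsimp only
      ring
    · intro x hx
      have h2 : x ∉ tsupport f := fun h => hx (hf.2.2 h)
      rw [image_eq_zero_of_notMem_tsupport h2]
      norm_num
  rw [h1, mass_pull hc hf.continuous hf.continuous, bform, bform]
  refine Finset.sum_congr rfl fun j _ => ?_
  refine congrArg (Jj c j * ·) (setIntegral_congr_fun (measurableSet_Sec m j) fun v hv => ?_)
  have h2 : pull c f v = f (Fm c v) := indicator_of_mem (Sec_subset_Tri m j hv) _
  rw [h2]

end Pool.Agent.MP4eed4eP
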