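import Pool.Agent.Lib.MP_4eed4e_an_PD.DChi
import Pool.Agent.Lib.MP_4eed4e_an_PD.DFrm
import Pool.Agent.Lib.MP_4eed4e_an_PC.CDen
import Pool.Agent.Lib.MP_4eed4e_an_PA.Coe

set_option autoImplicit false

/-!
Project P, block D, module DOp: the operators `MM c : VV → VV`, `AA c : HH → HH`, the weights `rho
j c`.

* `inner_X11`, `inner_X12`, `inner_X22`: the inner product of `WithLp 2 (LL × LL)` is the sum of
the inner   products of the components; use `inner_chi` and `cut_chi` (symmetry).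
* `inner_MM`: linearity (`sum_inner`, `real_inner_smul_left`), and the integral of the sum of the
three   terms over `Sec m j` (integrable: products of `L²` functions, `MemLp.mono_measure` /
restriction to   `Sec m j ⊆ Tri`).
* `inner_AA`: `⟨orthogonalProjection x, g'⟩ = ⟨x, g'⟩` for `g' : HH`.
* `coer_AA`: symmetry from the symmetry of `X11`, `X12`, `X22`. Coercivity: for `g = (g1, g2) : VV`
  (representatives) `⟨MM c g, g⟩ = ∑_j ∫_{Sec j} (m11 g1² + 2 m12 g1 g2 + m22 g2²)`; for `j ≤ m`,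
  `m11 > 0`, `m22 > 0` and `m11 m22 - m12² = 1` (Lagrange identity `|a|²|b|² - (a.b)² = J²`,
  `J > 0` by `Jj_pos`), so `m11 x² + 2 m12 x y + m22 y² ≥ (x² + y²) / (m11 + m22)`. With
  `q = min_j 1 / (m11 + m22)` the sum is `≥ q ∑_j ∫_{Sec j} (g1² + g2²) = q ‖g‖²` (`integral_Tri`).
* `RR_sq`: `‖RR f‖² = ∑_j rho_j² ‖chi_j f‖²` (`PA.Cut.norm_RR` in `_PA/Coe.lean`), `rho_j² = Jj`.
-/

namespace Pool.Agent.MP4eed4eP

open MeasureTheory Set Filter Topology

/-- `VV` as a product. -/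
noncomputable def eV : VV ≃L[ℝ] (LL × LL) := WithLp.prodContinuousLinearEquiv 2 ℝ LL LL

/-- `(g1, g2) ↦ (χ g1, 0)`. -/
noncomputable def X11 (m j : ℕ) : VV →L[ℝ] VV :=
  (eV.symm : (LL × LL) →L[ℝ] VV) ∘L
    ((chi m j ∘L ContinuousLinearMap.fst ℝ LL LL).prod 0) ∘L (eV : VV →L[ℝ] (LL × LL))

/-- `(g1, g2) ↦ (χ g2, χ g1)`. -/
noncomputable def X12 (m j : ℕ) : VV →L[ℝ] VV :=
  (eV.symm : (LL × LL) →L[ℝ] VV) ∘L
    ((chi m j ∘L ContinuousLinearMap.snd ℝ LL LL).prod
      (chi m j ∘L ContinuousLinearMap.fst ℝ LL LL)) ∘L (eV : VV →L[ℝ] (LL × LL))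

/-- `(g1, g2) ↦ (0, χ g2)`. -/
noncomputable def X22 (m j : ℕ) : VV →L[ℝ] VV :=
  (eV.symm : (LL × LL) →L[ℝ] VV) ∘L
    ((0 : (LL × LL) →L[ℝ] LL).prod (chi m j ∘L ContinuousLinearMap.snd ℝ LL LL)) ∘L
      (eV : VV →L[ℝ] (LL × LL))

/-- Multiplication by the matrices `M_j` on the sectors. -/
noncomputable def MM {m : ℕ} (c : Par m) : VV →L[ℝ] VV :=
  ∑ j : Fin (m + 1), (m11 c j • X11 m j + m12 c j • X12 m j + m22 c j • X22 m j)

/-- The operator of the energy form on `HH`. -/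
noncomputable def AA {m : ℕ} (c : Par m) : HH →L[ℝ] HH :=
  HH.orthogonalProjection ∘L MM c ∘L HH.subtypeL

/-- The weights `√ J_j`. -/
noncomputable def rho {m : ℕ} (j : Fin (m + 1)) (c : Par m) : ℝ := √(Jj c j)

/-- The weight operator. -/
noncomputable def RT {m : ℕ} (c : Par m) : LL →L[ℝ] LL :=
  PA.RR (fun j : Fin (m + 1) => chi m j) (fun j => rho j c)

/-! ### auxiliary lemmas -/

private theorem dop_eV (f1 f2 : P → ℝ) : eV (prT f1 f2) = (clT f1, clT f2) := rfl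

private theorem dop_symm (a b : LL) : eV.symm (a, b) = (WithLp.toLp 2 (a, b) : VV) := rfl

private theorem dop_X11 (m j : ℕ) (f1 f2 : P → ℝ) :
    X11 m j (prT f1 f2) = (WithLp.toLp 2 (chi m j (clT f1), (0 : LL)) : VV) := rfl

private theorem dop_X12 (m j : ℕ) (f1 f2 : P → ℝ) :
    X12 m j (prT f1 f2) = (WithLp.toLp 2 (chi m j (clT f2), chi m j (clT f1)) : VV) := rfl

private theorem dop_X22 (m j : ℕ) (f1 f2 : P → ℝ) :
    X22 m j (prT f1 f2) = (WithLp.toLp 2 ((0 : LL), chi m j (clT f2)) : VV) := rfl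

private theorem dop_int {m j : ℕ} {f g : P → ℝ} (hf : MemLp f 2 muT) (hg : MemLp g 2 muT) :
    Integrable (fun v => f v * g v) (volume.restrict (Sec m j)) :=
  (hf.integrable_mul hg).mono_measure (Measure.restrict_mono (Sec_subset_Tri m j) le_rfl)

/-- Every element of `VV` is a pair of classes. -/
private theorem dop_rep (v : VV) : ∃ f1 f2 : P → ℝ, MemLp f1 2 muT ∧ MemLp f2 2 muT ∧
    v = prT f1 f2 := by
  refine ⟨((eV v).1 : LL), ((eV v).2 : LL), Lp.memLp _, Lp.memLp _, ?_⟩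
  unfold prT
  rw [clT_coe, clT_coe]
  rfl

/-- The matrices `M_j` are positive definite with determinant `1`. -/
private theorem dop_det {m : ℕ} {c : Par m} (hc : c ∈ CM m) {j : ℕ} (hj : j ≤ m) :
    m11 c j * m22 c j - m12 c j ^ 2 = 1 ∧ 0 < m11 c j + m22 c j := by
  have hJ := Jj_pos hc hj
  have h1 : Jj c j = (La c j).1 * (Lb c j).2 - (La c j).2 * (Lb c j).1 := rfl
  constructor
  · unfold m11 m12 m22 dot
    rw [div_mul_div_comm, div_pow, ← pow_two (Jj c j), ← sub_div,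
      div_eq_one_iff_eq (by positivity), h1]
    ring
  · unfold m11 m22 dot
    rw [← add_div]
    refine div_pos ?_ hJ
    rcases eq_or_ne (La c j).1 0 with h2 | h2
    · have h3 : (La c j).2 ≠ 0 := by
        intro h3
        rw [h2, h3] at h1
        rw [h1] at hJ
        simp at hJ
      have h4 := mul_self_pos.2 h3
      nlinarith [mul_self_nonneg (La c j).1, mul_self_nonneg (Lb c j).1,
        mul_self_nonneg (Lb c j).2]
    · have h4 := mul_self_pos.2 h2
      nlinarith [mul_self_nonneg (La c j).2, mul_self_nonneg (Lb c j).1,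
        mul_self_nonneg (Lb c j).2]

private theorem dop_quad {a b d q x y : ℝ} (h : a * d - b ^ 2 = 1) (hq : 0 < a + d)
    (hq2 : q * (a + d) ≤ 1) (hq0 : 0 ≤ q) :
    q * (x * x + y * y) ≤ a * (x * x) + b * (x * y + y * x) + d * (y * y) := by
  have h1 : (a + d) * (a * (x * x) + b * (x * y + y * x) + d * (y * y)) =
      (a * x + b * y) ^ 2 + (b * x + d * y) ^ 2 + (a * d - b ^ 2) * (x * x + y * y) := by ring
  rw [h, one_mul] at h1
  have h2 : x * x + y * y ≤ (a + d) * (a * (x * x) + b * (x * y + y * x) + d * (y * y)) := by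
    rw [h1]
    nlinarith [sq_nonneg (a * x + b * y), sq_nonneg (b * x + d * y)]
  have h3 : 0 ≤ a * (x * x) + b * (x * y + y * x) + d * (y * y) := by
    by_contra h4
    push Not at h4
    have h5 := mul_neg_of_pos_of_neg hq h4
    nlinarith [mul_self_nonneg x, mul_self_nonneg y]
  calc q * (x * x + y * y) ≤ q * ((a + d) * (a * (x * x) + b * (x * y + y * x) + d * (y * y))) :=
        mul_le_mul_of_nonneg_left h2 hq0
    _ = (q * (a + d)) * (a * (x * x) + b * (x * y + y * x) + d * (y * y)) := by ring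
    _ ≤ 1 * (a * (x * x) + b * (x * y + y * x) + d * (y * y)) :=
        mul_le_mul_of_nonneg_right hq2 h3
    _ = _ := one_mul _

theorem inner_X11 {m j : ℕ} {f1 f2 g1 g2 : P → ℝ} (hf1 : MemLp f1 2 muT) (hf2 : MemLp f2 2 muT)
    (hg1 : MemLp g1 2 muT) (hg2 : MemLp g2 2 muT) :
    (inner ℝ (X11 m j (prT f1 f2)) (prT g1 g2) : ℝ) = ∫ v in Sec m j, f1 v * g1 v := by
  rw [dop_X11, ← inner_chi hf1 hg1]
  simp [prT, WithLp.prod_inner_apply]

theorem inner_X12 {m j : ℕ} {f1 f2 g1 g2 : P → ℝ} (hf1 : MemLp f1 2 muT) (hf2 : MemLp f2 2 muT)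
    (hg1 : MemLp g1 2 muT) (hg2 : MemLp g2 2 muT) :
    (inner ℝ (X12 m j (prT f1 f2)) (prT g1 g2) : ℝ) =
      ∫ v in Sec m j, (f1 v * g2 v + f2 v * g1 v) := by
  have h : ∫ v in Sec m j, (f1 v * g2 v + f2 v * g1 v) =
      (∫ v in Sec m j, f1 v * g2 v) + ∫ v in Sec m j, f2 v * g1 v :=
    integral_add (dop_int hf1 hg2) (dop_int hf2 hg1)
  rw [h, dop_X12, ← inner_chi hf1 hg2, ← inner_chi hf2 hg1, add_comm]
  simp [prT, WithLp.prod_inner_apply]

theorem inner_X22 {m j : ℕ} {f1 f2 g1 g2 : P → ℝ} (hf1 : MemLp f1 2 muT) (hf2 : MemLp f2 2 muT)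
    (hg1 : MemLp g1 2 muT) (hg2 : MemLp g2 2 muT) :
    (inner ℝ (X22 m j (prT f1 f2)) (prT g1 g2) : ℝ) = ∫ v in Sec m j, f2 v * g2 v := by
  rw [dop_X22, ← inner_chi hf2 hg2]
  simp [prT, WithLp.prod_inner_apply]

theorem inner_MM {m : ℕ} (c : Par m) {f1 f2 g1 g2 : P → ℝ} (hf1 : MemLp f1 2 muT)
    (hf2 : MemLp f2 2 muT) (hg1 : MemLp g1 2 muT) (hg2 : MemLp g2 2 muT) :
    (inner ℝ (MM c (prT f1 f2)) (prT g1 g2) : ℝ) = aform c f1 f2 g1 g2 := by
  unfold MM aform
  rw [ContinuousLinearMap.sum_apply, sum_inner]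
  refine Finset.sum_congr rfl fun j _ => ?_
  have i1 := dop_int (m := m) (j := j) hf1 hg1
  have i2 := dop_int (m := m) (j := j) hf1 hg2
  have i3 := dop_int (m := m) (j := j) hf2 hg1
  have i4 := dop_int (m := m) (j := j) hf2 hg2
  rw [ContinuousLinearMap.add_apply, ContinuousLinearMap.add_apply,
    ContinuousLinearMap.smul_apply, ContinuousLinearMap.smul_apply,
    ContinuousLinearMap.smul_apply, inner_add_left, inner_add_left, real_inner_smul_left,
    real_inner_smul_left, real_inner_smul_left, inner_X11 hf1 hf2 hg1 hg2,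
    inner_X12 hf1 hf2 hg1 hg2, inner_X22 hf1 hf2 hg1 hg2]
  have j2 : Integrable (fun v => f1 v * g2 v + f2 v * g1 v) (volume.restrict (Sec m j)) :=
    i2.add i3
  have j3 : Integrable (fun v => m11 c j * (f1 v * g1 v) +
      m12 c j * (f1 v * g2 v + f2 v * g1 v)) (volume.restrict (Sec m j)) :=
    (i1.const_mul _).add (j2.const_mul _)
  rw [← integral_const_mul, ← integral_const_mul, ← integral_const_mul,
    ← integral_add (i1.const_mul _) (j2.const_mul _), ← integral_add j3 (i4.const_mul _)]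

theorem inner_AA {m : ℕ} (c : Par m) (g g' : HH) :
    (inner ℝ (AA c g) g' : ℝ) = inner ℝ (MM c (g : VV)) (g' : VV) := by
  show (inner ℝ (HH.orthogonalProjection (MM c (g : VV))) g' : ℝ) = _
  exact Submodule.inner_orthogonalProjection_eq_of_mem_right g' _

private theorem dop_aform_symm {m : ℕ} (c : Par m) (f1 f2 g1 g2 : P → ℝ) :
    aform c f1 f2 g1 g2 = aform c g1 g2 f1 f2 := by
  unfold aform
  refine Finset.sum_congr rfl fun j _ => ?_
  congr 1
  funext v
  ring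

theorem coer_AA {m : ℕ} {c : Par m} (hc : c ∈ CM m) : PA.Coer (AA c) := by
  refine ⟨fun g h => ?_, ?_⟩
  · rw [inner_AA, real_inner_comm (AA c h) g, inner_AA]
    obtain ⟨f1, f2, hf1, hf2, hf⟩ := dop_rep (g : VV)
    obtain ⟨g1, g2, hg1, hg2, hg⟩ := dop_rep (h : VV)
    rw [hf, hg, inner_MM c hf1 hf2 hg1 hg2, inner_MM c hg1 hg2 hf1 hf2]
    exact dop_aform_symm c f1 f2 g1 g2
  · have hS : ∀ j : Fin (m + 1), 0 < m11 c j + m22 c j := fun j =>
      (dop_det hc (Nat.lt_succ_iff.1 j.2)).2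
    have hsum : 0 < ∑ j : Fin (m + 1), (m11 c j + m22 c j) :=
      Finset.sum_pos (fun j _ => hS j) Finset.univ_nonempty
    refine ⟨(∑ j : Fin (m + 1), (m11 c j + m22 c j))⁻¹, inv_pos.2 hsum, fun g => ?_⟩
    rw [inner_AA]
    obtain ⟨f1, f2, hf1, hf2, hf⟩ := dop_rep (g : VV)
    have h1 : ‖g‖ ^ 2 = ∫ x in Tri, (f1 x * f1 x + f2 x * f2 x) := by
      rw [← inner_prT hf1 hf2 hf1 hf2, ← hf, real_inner_self_eq_norm_sq]
      rfl
    have hi : IntegrableOn (fun x => f1 x * f1 x + f2 x * f2 x) Tri :=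
      (hf1.integrable_mul hf1).add (hf2.integrable_mul hf2)
    rw [h1, hf, inner_MM c hf1 hf2 hf1 hf2, integral_Tri (m := m) _ hi, Finset.mul_sum]
    unfold aform
    refine Finset.sum_le_sum fun j _ => ?_
    have i1 := dop_int (m := m) (j := j) hf1 hf1
    have i2 := dop_int (m := m) (j := j) hf1 hf2
    have i3 := dop_int (m := m) (j := j) hf2 hf1
    have i4 := dop_int (m := m) (j := j) hf2 hf2
    rw [← integral_const_mul]
    refine integral_mono ((i1.add i4).const_mul _)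
      (((i1.const_mul _).add ((i2.add i3).const_mul _)).add (i4.const_mul _)) fun v => ?_
    refine dop_quad (dop_det hc (Nat.lt_succ_iff.1 j.2)).1 (hS j) ?_ (inv_pos.2 hsum).le
    rw [inv_mul_le_iff₀ hsum, mul_one]
    exact Finset.single_le_sum (f := fun j : Fin (m + 1) => m11 c j + m22 c j)
      (fun i _ => (hS i).le) (Finset.mem_univ j)

theorem rho_sq {m : ℕ} {c : Par m} (hc : c ∈ CM m) (j : Fin (m + 1)) :
    rho j c ^ 2 = Jj c j ∧ 0 < rho j c := by
  have hJ := Jj_pos hc (Nat.lt_succ_iff.1 j.2)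
  exact ⟨Real.sq_sqrt hJ.le, Real.sqrt_pos.2 hJ⟩

theorem RT_sq {m : ℕ} {c : Par m} (hc : c ∈ CM m) {f : P → ℝ} (hf : MemLp f 2 muT) :
    ‖RT c (clT f)‖ ^ 2 = bform c f f := by
  unfold RT bform
  rw [PA.Cut.norm_RR (cut_chi m)]
  refine Finset.sum_congr rfl fun j _ => ?_
  rw [(rho_sq hc j).1, norm_chi hf]
  congr 2
  funext v
  ring

end Pool.Agent.MP4eed4eP
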