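import Pool.Agent.Lib.MP_4eed4e_an_PD.DOp

set_option autoImplicit false

/-!
Project P, block D, module DAna: the operators depend analytically on the parameters.

`c ↦ tt c j`, `c ↦ rr c j` are coordinates or constants; so `pB`, `pA`, `WW`, `La`, `Lb`, `Jj` are
polynomials in the coordinates of `c` (analytic everywhere; componentwise), and `Jj c j > 0` for `c
∈ CM m`, `j ≤ m` (`Jj_pos`), so `m11`, `m12`, `m22` are analytic at `c` (`AnalyticAt.div`) and `√
(Jj c j)` is analytic at `c` (`Real.contDiffAt_sqrt` with `n = ω`, `ContDiffAt.analyticAt` /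
`contDiffAt_omega_iff_analyticAt`, or `AnalyticAt.rpow_const`, or `exp (log / 2)`). `MM` is a
finite sum of analytic functions times fixed operators (`AnalyticAt.smul`,
`Finset.analyticAt_fun_sum`), and `AA` is the image of `MM` under the bounded linear map `X ↦
HH.orthogonalProjection ∘L X ∘L HH.subtypeL` (`ContinuousLinearMap.analyticAt`, e.g.
`(ContinuousLinearMap.compL ..)`). `inner_fderiv_AA`: the derivative of a finite sum of scalar
functions times fixed operators. -/

namespace Pool.Agent.MP4eed4eP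

open MeasureTheory Set Filter Topology

private theorem an_coord {m : ℕ} (i : Ix m) (c : Par m) :
    AnalyticAt ℝ (fun c : Par m => c i) c :=
  (ContinuousLinearMap.proj (R := ℝ) (φ := fun _ : Ix m => ℝ) i).analyticAt c

private theorem an_tt {m : ℕ} (j : ℕ) (c : Par m) : AnalyticAt ℝ (fun c : Par m => tt c j) c := by
  unfold tt
  split_ifs
  · exact an_coord _ c
  · exact analyticAt_const
  · exact analyticAt_const

private theorem an_rr {m : ℕ} (j : ℕ) (c : Par m) : AnalyticAt ℝ (fun c : Par m => rr c j) c := by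
  unfold rr
  split_ifs
  · exact an_coord _ c
  · exact analyticAt_const

private theorem an_pB {m : ℕ} (c : Par m) : AnalyticAt ℝ (fun c : Par m => pB c) c :=
  AnalyticAt.prod ((an_coord _ c).mul analyticAt_const) ((an_coord _ c).mul analyticAt_const)

private theorem an_pA {m : ℕ} (c : Par m) : AnalyticAt ℝ (fun c : Par m => pA c) c :=
  AnalyticAt.prod (an_coord _ c) (an_coord _ c)

private theorem an_WW {m : ℕ} (j : ℕ) (c : Par m) : AnalyticAt ℝ (fun c : Par m => WW c j) c :=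
  (an_rr j c).smul (((analyticAt_const.sub (an_tt j c)).smul (an_pB c).neg).add
    ((an_tt j c).smul ((an_pA c).sub (an_pB c))))

private theorem an_La {m : ℕ} (j : ℕ) (c : Par m) : AnalyticAt ℝ (fun c : Par m => La c j) c := by
  unfold La
  exact AnalyticAt.fun_const_smul ((an_WW j c).fun_const_smul.fun_sub
    (an_WW (j + 1) c).fun_const_smul)

private theorem an_Lb {m : ℕ} (j : ℕ) (c : Par m) : AnalyticAt ℝ (fun c : Par m => Lb c j) c := by
  unfold Lb
  exact AnalyticAt.fun_const_smul ((an_WW (j + 1) c).fun_const_smul.fun_sub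
    (an_WW j c).fun_const_smul)

private theorem an_fst {m : ℕ} {f : Par m → P} {c : Par m} (h : AnalyticAt ℝ f c) :
    AnalyticAt ℝ (fun c => (f c).1) c :=
  ((ContinuousLinearMap.fst ℝ ℝ ℝ).analyticAt _).comp h

private theorem an_snd {m : ℕ} {f : Par m → P} {c : Par m} (h : AnalyticAt ℝ f c) :
    AnalyticAt ℝ (fun c => (f c).2) c :=
  ((ContinuousLinearMap.snd ℝ ℝ ℝ).analyticAt _).comp h

private theorem an_dot {m : ℕ} {f f' : Par m → P} {c : Par m} (h : AnalyticAt ℝ f c)
    (h' : AnalyticAt ℝ f' c) : AnalyticAt ℝ (fun c => dot (f c) (f' c)) c :=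
  ((an_fst h).mul (an_fst h')).add ((an_snd h).mul (an_snd h'))

private theorem an_MM {m : ℕ} {c : Par m}
    (h : ∀ j ≤ m, AnalyticAt ℝ (fun c : Par m => m11 c j) c ∧
      AnalyticAt ℝ (fun c : Par m => m12 c j) c ∧ AnalyticAt ℝ (fun c : Par m => m22 c j) c) :
    AnalyticAt ℝ (fun c : Par m => MM c) c := by
  unfold MM
  refine Finset.analyticAt_fun_sum _ fun j _ => ?_
  obtain ⟨h1, h2, h3⟩ := h j (by omega)
  exact ((h1.smul analyticAt_const).add (h2.smul analyticAt_const)).add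
    (h3.smul analyticAt_const)

private theorem an_inner {m : ℕ} (c : Par m) (g : HH) {g1 g2 : P → ℝ}
    (hg1 : MemLp g1 2 muT) (hg2 : MemLp g2 2 muT) (hg : (g : VV) = prT g1 g2) :
    (inner ℝ (AA c g) g : ℝ) = ∑ j : Fin (m + 1),
      (m11 c j * (∫ v in Sec m j, g1 v ^ 2) + m12 c j * (∫ v in Sec m j, 2 * (g1 v * g2 v)) +
        m22 c j * (∫ v in Sec m j, g2 v ^ 2)) := by
  rw [inner_AA, hg, MM, ContinuousLinearMap.sum_apply, sum_inner]
  refine Finset.sum_congr rfl fun j _ => ?_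
  rw [ContinuousLinearMap.add_apply, ContinuousLinearMap.add_apply, inner_add_left,
    inner_add_left, ContinuousLinearMap.smul_apply, ContinuousLinearMap.smul_apply,
    ContinuousLinearMap.smul_apply, real_inner_smul_left, real_inner_smul_left,
    real_inner_smul_left, inner_X11 hg1 hg2 hg1 hg2, inner_X12 hg1 hg2 hg1 hg2,
    inner_X22 hg1 hg2 hg1 hg2]
  have e1 : (fun v => g1 v * g1 v) = fun v => g1 v ^ 2 := funext fun v => (sq _).symm
  have e2 : (fun v => g2 v * g2 v) = fun v => g2 v ^ 2 := funext fun v => (sq _).symm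
  have e3 : (fun v => g1 v * g2 v + g2 v * g1 v) = fun v => 2 * (g1 v * g2 v) :=
    funext fun v => by ring
  rw [e1, e2, e3]

theorem analyticAt_Jj {m : ℕ} (j : ℕ) (c : Par m) : AnalyticAt ℝ (fun c : Par m => Jj c j) c := by
  exact ((an_fst (an_La j c)).mul (an_snd (an_Lb j c))).sub
    ((an_snd (an_La j c)).mul (an_fst (an_Lb j c)))

theorem analyticAt_m {m : ℕ} {c : Par m} (hc : c ∈ CM m) {j : ℕ} (hj : j ≤ m) :
    AnalyticAt ℝ (fun c : Par m => m11 c j) c ∧ AnalyticAt ℝ (fun c : Par m => m12 c j) c ∧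
      AnalyticAt ℝ (fun c : Par m => m22 c j) c := by
  have h0 : Jj c j ≠ 0 := (Jj_pos hc hj).ne'
  exact ⟨(an_dot (an_Lb j c) (an_Lb j c)).div (analyticAt_Jj j c) h0,
    (an_dot (an_La j c) (an_Lb j c)).neg.div (analyticAt_Jj j c) h0,
    (an_dot (an_La j c) (an_La j c)).div (analyticAt_Jj j c) h0⟩

theorem analyticAt_rho {m : ℕ} {c : Par m} (hc : c ∈ CM m) (j : Fin (m + 1)) :
    AnalyticAt ℝ (rho j) c := by
  have h0 : 0 < Jj c j := Jj_pos hc (by omega)
  have h1 : AnalyticAt ℝ (fun x : ℝ => √x) (Jj c j) :=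
    (Real.contDiffAt_sqrt (n := ⊤) h0.ne').analyticAt
  exact h1.comp' (f := fun c : Par m => Jj c j) (analyticAt_Jj j c)

theorem analyticAt_AA {m : ℕ} {c : Par m} (hc : c ∈ CM m) :
    AnalyticAt ℝ (fun c : Par m => AA c) c := by
  have h1 := an_MM fun j hj => analyticAt_m hc hj
  have h2 : AnalyticAt ℝ (fun X : HH →L[ℝ] VV => (HH.orthogonalProjection ∘L X : HH →L[ℝ] HH))
      (MM c ∘L HH.subtypeL) := by
    have h := ContinuousLinearMap.analyticAt (𝕜 := ℝ) (E := HH →L[ℝ] VV) (F := HH →L[ℝ] HH)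
      (ContinuousLinearMap.compL ℝ HH VV HH HH.orthogonalProjection) (MM c ∘L HH.subtypeL)
    exact h
  have h3 : AnalyticAt ℝ (fun X : VV →L[ℝ] VV => (X ∘L HH.subtypeL : HH →L[ℝ] VV)) (MM c) := by
    have h := ContinuousLinearMap.analyticAt (𝕜 := ℝ) (E := VV →L[ℝ] VV) (F := HH →L[ℝ] VV)
      (ContinuousLinearMap.precomp VV HH.subtypeL) (MM c)
    exact h
  have h4 : AnalyticAt ℝ (fun c : Par m => (MM c ∘L HH.subtypeL : HH →L[ℝ] VV)) c :=
    h3.comp' (f := fun c : Par m => MM c) h1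
  exact h2.comp' (f := fun c : Par m => (MM c ∘L HH.subtypeL : HH →L[ℝ] VV)) h4

theorem inner_fderiv_AA {m : ℕ} {c : Par m} (hc : c ∈ CM m) (w : Par m) (g : HH) {g1 g2 : P → ℝ}
    (hg1 : MemLp g1 2 muT) (hg2 : MemLp g2 2 muT) (hg : (g : VV) = prT g1 g2) :
    (inner ℝ (fderiv ℝ (fun c : Par m => AA c) c w g) g : ℝ) = ∑ j : Fin (m + 1),
      (fderiv ℝ (fun c : Par m => m11 c j) c w * (∫ v in Sec m j, g1 v ^ 2) +
        fderiv ℝ (fun c : Par m => m12 c j) c w * (∫ v in Sec m j, 2 * (g1 v * g2 v)) +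
        fderiv ℝ (fun c : Par m => m22 c j) c w * (∫ v in Sec m j, g2 v ^ 2)) := by
  have hA := (analyticAt_AA hc).differentiableAt.hasFDerivAt
  have h1 : HasFDerivAt (fun c : Par m => (inner ℝ g (AA c g) : ℝ))
      (((innerSL ℝ g).comp (ContinuousLinearMap.apply ℝ HH g)).comp
        (fderiv ℝ (fun c : Par m => AA c) c)) c := by
    have h0 : HasFDerivAt (fun X : HH →L[ℝ] HH => (inner ℝ g (X g) : ℝ))
        ((innerSL ℝ g).comp (ContinuousLinearMap.apply ℝ HH g)) (AA c) :=
      ((innerSL ℝ g).comp (ContinuousLinearMap.apply ℝ HH g)).hasFDerivAt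
    exact h0.comp c hA
  have h2 : HasFDerivAt (fun c : Par m => ∑ j : Fin (m + 1),
      (m11 c j * (∫ v in Sec m j, g1 v ^ 2) + m12 c j * (∫ v in Sec m j, 2 * (g1 v * g2 v)) +
        m22 c j * (∫ v in Sec m j, g2 v ^ 2)))
      (∑ j : Fin (m + 1), ((∫ v in Sec m j, g1 v ^ 2) • fderiv ℝ (fun c : Par m => m11 c j) c +
        (∫ v in Sec m j, 2 * (g1 v * g2 v)) • fderiv ℝ (fun c : Par m => m12 c j) c +
        (∫ v in Sec m j, g2 v ^ 2) • fderiv ℝ (fun c : Par m => m22 c j) c)) c := by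
    refine HasFDerivAt.fun_sum fun j _ => ?_
    obtain ⟨k1, k2, k3⟩ := analyticAt_m hc (j := (j : ℕ)) (by omega)
    exact ((k1.differentiableAt.hasFDerivAt.mul_const _).add
      (k2.differentiableAt.hasFDerivAt.mul_const _)).add
      (k3.differentiableAt.hasFDerivAt.mul_const _)
  have h3 : (fun c : Par m => (inner ℝ g (AA c g) : ℝ)) = fun c : Par m => ∑ j : Fin (m + 1),
      (m11 c j * (∫ v in Sec m j, g1 v ^ 2) + m12 c j * (∫ v in Sec m j, 2 * (g1 v * g2 v)) +
        m22 c j * (∫ v in Sec m j, g2 v ^ 2)) := by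
    funext c
    rw [real_inner_comm]
    exact an_inner c g hg1 hg2 hg
  rw [h3] at h1
  have h4 := congrArg (fun L : Par m →L[ℝ] ℝ => L w) (h1.unique h2)
  have h5 : (((innerSL ℝ g).comp (ContinuousLinearMap.apply ℝ HH g)).comp
      (fderiv ℝ (fun c : Par m => AA c) c)) w =
      inner ℝ g (fderiv ℝ (fun c : Par m => AA c) c w g) := rfl
  simp only [h5] at h4
  rw [real_inner_comm, h4, ContinuousLinearMap.sum_apply]
  refine Finset.sum_congr rfl fun j _ => ?_
  simp only [ContinuousLinearMap.add_apply, ContinuousLinearMap.smul_apply, smul_eq_mul]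
  ring

end Pool.Agent.MP4eed4eP
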