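import Pool.Agent.Lib.MP_4eed4e_an_PD.DLam
import Pool.Agent.Lib.MP_4eed4e_an_PD.DAna
import Pool.Agent.Lib.MP_4eed4e_an_PD.DCM
import Pool.Agent.Lib.MP_4eed4e_an_PA.OutA

set_option autoImplicit false

/-!
Project P, block D, module DMain: the traces.

`hasSum_mmT`: apply `PA.hasSum_mm` to `emb_T`, `ioT`, `cut_chi m`, `rho` (positive by `rho_sq`),
`coer_AA hc`, `GG` (dense: `dense_GG`, `Submodule.dense_iff_topologicalClosure_eq_top`), `inf_LL`;
the adjoint of `ioT` is injective because the range of `ioT` is dense (`dense_ET`: `⟨adjoint ioT f,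
g⟩ = ⟨f, ioT g⟩ = 0` for all `g`). Everything else follows with `lamL_Dom_eq`; `analytic_Fn`: near
`c ∈ CM m` (open) `Fn m a` is the function `c ↦ PA.trc sT (PA.SS ioT (AA c) (RT c)) a`
(`Fn_eq_trc`), analytic by `PA.analyticAt_trc` (`analyticAt_AA`, `analyticAt_rho`,
`PA.Coer.isUnit`). -/

namespace Pool.Agent.MP4eed4eP

open MeasureTheory Set Filter Topology

theorem hasSum_mmT {m : ℕ} {c : Par m} (hc : c ∈ CM m) :
    (∀ n, 0 < PA.mm ioT (AA c) (RT c) GG (n + 1)) ∧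
    Monotone (fun n => PA.mm ioT (AA c) (RT c) GG (n + 1)) ∧
    Filter.Tendsto (fun n => PA.mm ioT (AA c) (RT c) GG (n + 1)) Filter.atTop Filter.atTop ∧
    ∀ a : ℕ, 1 ≤ a → HasSum (fun n => (PA.mm ioT (AA c) (RT c) GG (n + 1))⁻¹ ^ (2 * a))
      (PA.trc sT (PA.SS ioT (AA c) (RT c)) a) := by
  refine PA.hasSum_mm emb_T (fun f hf => ?_) inf_LL (cut_chi m) (fun j => (rho_sq hc j).2)
    (coer_AA hc) (Submodule.dense_iff_topologicalClosure_eq_top.2 dense_GG)
  have h1 : Continuous fun g : LL => (inner ℝ f g : ℝ) := continuous_const.inner continuous_id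
  have h2 : (fun g : LL => (inner ℝ f g : ℝ)) = fun _ => 0 := by
    refine dense_ET.equalizer h1 continuous_const (funext fun g => ?_)
    change (inner ℝ f (ioT g) : ℝ) = 0
    rw [← ContinuousLinearMap.adjoint_inner_left, hf, inner_zero_left]
  exact inner_self_eq_zero.1 (congrFun h2 f)

theorem lamL_Dom_pos {m : ℕ} {c : Par m} (hc : c ∈ CM m) (k : ℕ) :
    0 < lamL (Dom c) (k + 1) := by
  rw [lamL_Dom_eq hc]
  exact (hasSum_mmT hc).1 k

theorem lamL_Dom_mono {m : ℕ} {c : Par m} (hc : c ∈ CM m) :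
    Monotone (fun k => lamL (Dom c) (k + 1)) := by
  simp only [lamL_Dom_eq hc]
  exact (hasSum_mmT hc).2.1

theorem lamL_Dom_tendsto {m : ℕ} {c : Par m} (hc : c ∈ CM m) :
    Tendsto (fun k => lamL (Dom c) (k + 1)) atTop atTop := by
  simp only [lamL_Dom_eq hc]
  exact (hasSum_mmT hc).2.2.1

theorem summable_lamL_Dom {m : ℕ} {c : Par m} (hc : c ∈ CM m) {a : ℕ} (ha : 1 ≤ a) :
    Summable (fun k => ((lamL (Dom c) (k + 1))⁻¹) ^ (2 * a)) := by
  simp only [lamL_Dom_eq hc]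
  exact ((hasSum_mmT hc).2.2.2 a ha).summable

theorem Fn_eq_trc {m : ℕ} {c : Par m} (hc : c ∈ CM m) {a : ℕ} (ha : 1 ≤ a) :
    Fn m a c = PA.trc sT (PA.SS ioT (AA c) (RT c)) a := by
  unfold Fn fa
  simp only [lamL_Dom_eq hc]
  exact ((hasSum_mmT hc).2.2.2 a ha).tsum_eq

theorem analytic_Fn {m a : ℕ} (ha : 1 ≤ a) : AnalyticOnNhd ℝ (Fn m a) (CM m) := by
  intro c hc
  have h1 : AnalyticAt ℝ (fun c : Par m => PA.trc sT (PA.SS ioT (AA c) (RT c)) a) c :=
    PA.analyticAt_trc emb_T (fun j : Fin (m + 1) => chi m j) (analyticAt_AA hc)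
      (fun j => analyticAt_rho hc j) (coer_AA hc).isUnit ha
  refine h1.congr ?_
  filter_upwards [(isOpen_CM m).mem_nhds hc] with x hx
  exact (Fn_eq_trc hx ha).symm

end Pool.Agent.MP4eed4eP
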