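import Pool.Agent.Lib.MP_4eed4e_an_PC.CLam

set_option autoImplicit false

/-!
Project P, block D, module DEig: the min-max values of the statement are those of the project.
-/

namespace Pool.Agent.MP4eed4eP

open MeasureTheory Set Filter Topology

private theorem DEig_ofP (x : E2) : ofP (toP x) = x := by
  ext i
  fin_cases i <;> simp [ofP, toP]

private theorem DEig_toP (v : P) : toP (ofP v) = v := by
  simp [ofP, toP]

private theorem DEig_cont : Continuous ofP := by
  unfold ofP
  refine (PiLp.continuous_toLp 2 _).comp ?_
  refine continuous_pi fun i => ?_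
  fin_cases i
  · exact continuous_fst
  · exact continuous_snd

/-- The min-max values of the statement are those of the project. -/
theorem eig_eq (Ω : Set E2) (h : IsOpen Ω) (k : ℕ) : eig Ω k = lamL (toP '' Ω) k := by
  have h1 : toP '' Ω = ofP ⁻¹' Ω := by
    ext v
    constructor
    · rintro ⟨x, hx, rfl⟩
      show ofP (toP x) ∈ Ω
      rw [DEig_ofP]
      exact hx
    · intro hv
      exact ⟨ofP v, hv, DEig_toP v⟩
  have h2 : IsOpen (toP '' Ω) := by
    rw [h1]
    exact h.preimage DEig_cont
  rw [eig_eq_lamC, lamC_eq h2]

end Pool.Agent.MP4eed4eP
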