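import Pool.Agent.Lib.MP_4eed4e_an_PD.DDom

set_option autoImplicit false

/-!
Project P, block D, module DCnv: if the polygon is weakly convex then `Dom c` is the interior of
the convex hull.

Notation: `K = convexHull ℝ (range (poly c))`, `Kp (poly c) = interior K`. The points are `p_0 = pB
c` and `vert c j`, `0 ≤ j ≤ m + 1` (`poly c 0 = pB c`, `poly c i = vert c (i - 1)`). For `j ≤ m` let
`E_j y = det2 (vert (j+1) - vert j) (y - vert j)`; then
`E_j (pB) = det2 (W_{j+1} - W_j) (-W_j) = det2 W_j W_{j+1} =: D_j > 0`, and by `WCcw` (indices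
`j + 1 < j + 2 < i` or `i < j + 1 < j + 2`, a cyclic permutation does not change the determinant
`det2 (b - a) (c - a)`) `E_j (vert i) ≥ 0` for all `i ≤ m + 1`.
The half planes `{y | E_j y ≥ 0}` (`j ≤ m`), `{y | det2 (y - pB) (pA - pB) ≥ 0}`,
`{y | det2 (-pB) (y - pB) ≥ 0}` contain all points of the polygon (`det_WW_A`, `det_WW_B`), hence
`K`. For `v ∈ CS m j`: `Fm c v = pB + α W_j + β W_{j+1}`, `α, β ≥ 0`, `α + β = v.1 + v.2`
(`Lj_eq`), and `E_j (Fm c v) = D_j (1 - (α + β)) = D_j (1 - (v.1 + v.2))` (`E_j` is affine, `E_j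
(vert j) = E_j (vert (j+1)) = 0`); for `i ≤ m` arbitrary: `E_i (Fm c v) = (1 - α - β) D_i + α E_i
(vert j) + β E_i (vert (j+1)) ≥ (1 - v.1 - v.2) D_i`.
* `Dom c ⊆ Kp (poly c)`: `Dom c` is open (`isOpen_Dom`), and for `v ∈ Tri ∩ CS m j`:
  `Fm c v = (1 - α - β) pB + α vert j + β vert (j + 1) ∈ K` (`interior_maximal`).
* `Kp (poly c) ⊆ Dom c`: let `y ∈ interior K`. Then `y` is in the interior of each of the half
planes above,   so the inequalities are strict: if an affine function `E ≥ 0` on `K`, `E` not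
constant, and `y ∈ interior K`   then `E y > 0` (otherwise move `y` a little in the direction in
which `E` decreases). (`E_j` is not constant   because `W_{j+1} - W_j ≠ 0`, `D_j > 0`.) So `y ∈
Cone c`; let `v = Gm c y`, `Fm c v = y`, `v.1, v.2 > 0`,   `v ∈ CS m j` for some `j ≤ m`, and `0 <
E_j y = D_j (1 - (v.1 + v.2))`, so `v ∈ Tri`. -/

namespace Pool.Agent.MP4eed4eP

open Set

private theorem DCnv_zero {m : ℕ} (c : Par m) : poly c 0 = pB c := by
  simp [poly]

private theorem DCnv_succ {m : ℕ} (c : Par m) (i : ℕ) (hi : i ≤ m + 1) :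
    poly c ⟨i + 1, by omega⟩ = vert c i := by
  simp [poly]

private theorem DCnv_cases {m : ℕ} (c : Par m) (k : Fin (m + 3)) :
    poly c k = pB c ∨ ∃ i ≤ m + 1, poly c k = vert c i := by
  by_cases hk : (k : ℕ) = 0
  · left
    rw [poly, if_pos hk]
  · right
    refine ⟨(k : ℕ) - 1, by omega, ?_⟩
    rw [poly, if_neg hk]

private theorem DCnv_half {m : ℕ} {c : Par m} {u w : P} (hu : 0 ≤ det2 u (pB c - w))
    (hv : ∀ i ≤ m + 1, 0 ≤ det2 u (vert c i - w)) :
    convexHull ℝ (range (poly c)) ⊆ {y | 0 ≤ det2 u (y - w)} := by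
  refine convexHull_min ?_ ?_
  · rintro _ ⟨k, rfl⟩
    rcases DCnv_cases c k with h | ⟨i, hi, h⟩
    · rw [h]
      exact hu
    · rw [h]
      exact hv i hi
  · intro x hx y hy a b ha hb hab
    have hx' : 0 ≤ det2 u (x - w) := hx
    have hy' : 0 ≤ det2 u (y - w) := hy
    have h1 : det2 u (a • x + b • y - w) = a * det2 u (x - w) + b * det2 u (y - w) := by
      have h2 : b = 1 - a := by linarith
      rw [h2]
      simp only [det2, Prod.fst_add, Prod.snd_add, Prod.fst_sub, Prod.snd_sub, Prod.smul_fst,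
        Prod.smul_snd, smul_eq_mul]
      ring
    show 0 ≤ det2 u (a • x + b • y - w)
    rw [h1]
    exact add_nonneg (mul_nonneg ha hx') (mul_nonneg hb hy')

private theorem DCnv_pos {m : ℕ} {c : Par m} {u w : P} (hu0 : u ≠ 0)
    (hu : 0 ≤ det2 u (pB c - w)) (hv : ∀ i ≤ m + 1, 0 ≤ det2 u (vert c i - w)) {y : P}
    (hy : y ∈ Kp (poly c)) : 0 < det2 u (y - w) := by
  obtain ⟨ε, hε, hball⟩ := Metric.isOpen_iff.1 isOpen_interior y hy
  obtain ⟨d, hd⟩ : ∃ d : P, d = (u.2, -u.1) := ⟨_, rfl⟩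
  obtain ⟨s, hs⟩ : ∃ s : ℝ, s = ε / (2 * (‖d‖ + 1)) := ⟨_, rfl⟩
  have hn : 0 ≤ ‖d‖ := norm_nonneg d
  have hs0 : 0 < s := by
    rw [hs]
    positivity
  have hsd : s * ‖d‖ < ε := by
    rw [hs, div_mul_eq_mul_div, div_lt_iff₀ (by positivity)]
    nlinarith
  have h1 : y + s • d ∈ convexHull ℝ (range (poly c)) := by
    apply interior_subset
    apply hball
    rw [Metric.mem_ball, dist_eq_norm, add_sub_cancel_left, norm_smul, Real.norm_eq_abs,
      abs_of_pos hs0]
    exact hsd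
  have h2 : 0 ≤ det2 u (y + s • d - w) := DCnv_half hu hv h1
  have h3 : det2 u (y + s • d - w) = det2 u (y - w) - s * (u.1 ^ 2 + u.2 ^ 2) := by
    rw [hd]
    simp only [det2, Prod.fst_add, Prod.snd_add, Prod.fst_sub, Prod.snd_sub, Prod.smul_fst,
      Prod.smul_snd, smul_eq_mul]
    ring
  have h4 : 0 < u.1 ^ 2 + u.2 ^ 2 := by
    by_contra hcon
    have h5 : u.1 ^ 2 = 0 := by nlinarith [sq_nonneg u.1, sq_nonneg u.2]
    have h6 : u.2 ^ 2 = 0 := by nlinarith [sq_nonneg u.1, sq_nonneg u.2]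
    exact hu0 (Prod.ext (pow_eq_zero_iff (two_ne_zero)|>.1 h5)
      (pow_eq_zero_iff (two_ne_zero)|>.1 h6))
  have h7 := mul_pos hs0 h4
  linarith

private theorem DCnv_vsub {m : ℕ} (c : Par m) (j : ℕ) :
    vert c (j + 1) - vert c j = WW c (j + 1) - WW c j := by
  simp only [vert]
  abel

private theorem DCnv_D {m : ℕ} {c : Par m} (hc : c ∈ CM m) {j : ℕ} (hj : j ≤ m) :
    0 < det2 (WW c j) (WW c (j + 1)) := by
  rw [det_WW]
  have h1 := rr_pos hc j
  have h2 := rr_pos hc (j + 1)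
  have h3 := tt_lt hc (Nat.lt_succ_self j) (by omega : j + 1 ≤ m + 1)
  have h4 := DD_pos hc
  have h5 : 0 < tt c (j + 1) - tt c j := sub_pos.2 h3
  positivity

private theorem DCnv_E {m : ℕ} {c : Par m} (hc : c ∈ CM m) (h : WCcw (poly c)) {j : ℕ}
    (hj : j ≤ m) : WW c (j + 1) - WW c j ≠ 0 ∧
      0 ≤ det2 (WW c (j + 1) - WW c j) (pB c - vert c j) ∧
      ∀ i ≤ m + 1, 0 ≤ det2 (WW c (j + 1) - WW c j) (vert c i - vert c j) := by
  have hD := DCnv_D hc hj
  have h1 : det2 (WW c (j + 1) - WW c j) (pB c - vert c j) = det2 (WW c j) (WW c (j + 1)) := by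
    simp only [det2, vert, Prod.fst_add, Prod.snd_add, Prod.fst_sub, Prod.snd_sub]
    ring
  refine ⟨?_, ?_, ?_⟩
  · intro h0
    rw [h0] at h1
    have h2 : det2 (0 : P) (pB c - vert c j) = 0 := by
      simp only [det2, Prod.fst_zero, Prod.snd_zero, zero_mul, sub_zero]
    rw [h2] at h1
    linarith
  · rw [h1]
    exact hD.le
  · intro i hi
    rw [← DCnv_vsub]
    rcases lt_trichotomy i j with hij | hij | hij
    · have h2 := h ⟨i + 1, by omega⟩ ⟨j + 1, by omega⟩ ⟨j + 1 + 1, by omega⟩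
        (by rw [Fin.mk_lt_mk]; omega) (by rw [Fin.mk_lt_mk]; omega)
      rw [DCnv_succ c i hi, DCnv_succ c j (by omega), DCnv_succ c (j + 1) (by omega)] at h2
      refine h2.trans (le_of_eq ?_)
      simp only [det2, Prod.fst_sub, Prod.snd_sub]
      ring
    · rw [hij, sub_self]
      simp only [det2, Prod.fst_zero, Prod.snd_zero, mul_zero, sub_zero, le_refl]
    · rcases eq_or_lt_of_le (Nat.succ_le_of_lt hij) with hij2 | hij2
      · rw [← hij2]
        simp only [det2]
        apply le_of_eq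
        ring
      · have h2 := h ⟨j + 1, by omega⟩ ⟨j + 1 + 1, by omega⟩ ⟨i + 1, by omega⟩
          (by rw [Fin.mk_lt_mk]; omega) (by rw [Fin.mk_lt_mk]; omega)
        rw [DCnv_succ c i hi, DCnv_succ c j (by omega), DCnv_succ c (j + 1) (by omega)] at h2
        exact h2

private theorem DCnv_mem {m : ℕ} (c : Par m) : pB c ∈ convexHull ℝ (range (poly c)) ∧
    ∀ i ≤ m + 1, vert c i ∈ convexHull ℝ (range (poly c)) := by
  constructor
  · rw [← DCnv_zero c]
    exact subset_convexHull ℝ _ ⟨_, rfl⟩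
  · intro i hi
    rw [← DCnv_succ c i hi]
    exact subset_convexHull ℝ _ ⟨_, rfl⟩

private theorem DCnv_Fm {m : ℕ} (c : Par m) {j : ℕ} (hj : j ≤ m) {v : P} (hv : v ∈ CS m j) :
    ∃ a b : ℝ, 0 ≤ a ∧ 0 ≤ b ∧ a + b = v.1 + v.2 ∧
      Fm c v = pB c + (a • WW c j + b • WW c (j + 1)) := by
  have hm : (0 : ℝ) < (m : ℝ) + 1 := by positivity
  refine ⟨_, _, mul_nonneg hm.le (sub_nonneg.2 hv.2.2), mul_nonneg hm.le (sub_nonneg.2 hv.2.1),
    ?_, ?_⟩
  · rw [t0_succ]
    field_simp
    ring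
  · rw [Fm_CS c hj hv, Lj_eq]

theorem Dom_eq {m : ℕ} {c : Par m} (hc : c ∈ CM m) (h : WCcw (poly c)) :
    Dom c = Kp (poly c) := by
  apply Subset.antisymm
  · refine interior_maximal ?_ (isOpen_Dom hc)
    rintro _ ⟨v, hv, rfl⟩
    obtain ⟨j, hj, hvj⟩ := exists_CS m (Tri_subset_Quad hv)
    obtain ⟨a, b, ha, hb, hab, hF⟩ := DCnv_Fm c hj hvj
    obtain ⟨hv1, hv2, hv3⟩ := hv
    obtain ⟨k0, k1⟩ := DCnv_mem c
    have hs : 0 < a + b := by
      rw [hab]
      exact add_pos hv1 hv2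
    have hconv := convex_convexHull ℝ (range (poly c))
    have h1 : (a / (a + b)) • vert c j + (b / (a + b)) • vert c (j + 1) ∈
        convexHull ℝ (range (poly c)) :=
      hconv (k1 j (by omega)) (k1 (j + 1) (by omega)) (by positivity) (by positivity)
        (by rw [← add_div, div_self hs.ne'])
    have h2 : (1 - (a + b)) • pB c +
        (a + b) • ((a / (a + b)) • vert c j + (b / (a + b)) • vert c (j + 1)) ∈
        convexHull ℝ (range (poly c)) :=
      hconv k0 h1 (by rw [hab]; linarith) hs.le (by ring)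
    have h3 : Fm c v = (1 - (a + b)) • pB c +
        (a + b) • ((a / (a + b)) • vert c j + (b / (a + b)) • vert c (j + 1)) := by
      rw [hF, smul_add, smul_smul, smul_smul, mul_div_cancel₀ _ hs.ne', mul_div_cancel₀ _ hs.ne',
        vert, vert]
      module
    rw [h3]
    exact h2
  · intro y hy
    have hDD := DD_pos hc
    have htt : ∀ i, 0 ≤ tt c i ∧ tt c i ≤ 1 := tt_mem hc
    have hne : det2 (-pB c) (pA c - pB c) ≠ 0 := hDD.ne'
    have hA : 0 < det2 (pB c - pA c) (y - pB c) := by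
      refine DCnv_pos ?_ ?_ ?_ hy
      · intro h0
        apply hne
        have h1 : pA c - pB c = 0 := by rw [← neg_sub, h0, neg_zero]
        rw [h1]
        simp only [det2, Prod.fst_zero, Prod.snd_zero, mul_zero, sub_zero]
      · rw [sub_self]
        simp only [det2, Prod.fst_zero, Prod.snd_zero, mul_zero, sub_zero, le_refl]
      · intro i _
        have h1 : det2 (pB c - pA c) (vert c i - pB c) = det2 (WW c i) (pA c - pB c) := by
          simp only [det2, vert, Prod.fst_add, Prod.snd_add, Prod.fst_sub, Prod.snd_sub]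
          ring
        rw [h1, det_WW_A]
        exact mul_nonneg (mul_nonneg (rr_pos hc i).le (sub_nonneg.2 (htt i).2)) hDD.le
    have hB : 0 < det2 (-pB c) (y - pB c) := by
      refine DCnv_pos ?_ ?_ ?_ hy
      · intro h0
        apply hne
        rw [h0]
        simp only [det2, Prod.fst_zero, Prod.snd_zero, zero_mul, sub_zero]
      · rw [sub_self]
        simp only [det2, Prod.fst_zero, Prod.snd_zero, mul_zero, sub_zero, le_refl]
      · intro i _
        have h1 : vert c i - pB c = WW c i := by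
          rw [vert, add_sub_cancel_left]
        rw [h1, det_WW_B]
        exact mul_nonneg (mul_nonneg (rr_pos hc i).le (htt i).1) hDD.le
    have hcone : y ∈ Cone c := by
      refine ⟨?_, hB⟩
      have h1 : det2 (y - pB c) (pA c - pB c) = det2 (pB c - pA c) (y - pB c) := by
        simp only [det2, Prod.fst_sub, Prod.snd_sub]
        ring
      rw [h1]
      exact hA
    obtain ⟨hv1, hv2, hF⟩ := (Gm_spec hc).2.2 y hcone
    obtain ⟨v, hv⟩ : ∃ v : P, v = Gm c y := ⟨_, rfl⟩
    rw [← hv] at hv1 hv2 hF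
    obtain ⟨j, hj, hvj⟩ := exists_CS m (⟨hv1.le, hv2.le⟩ : v ∈ Quad)
    obtain ⟨a, b, ha, hb, hab, hF2⟩ := DCnv_Fm c hj hvj
    obtain ⟨e1, e2, e3⟩ := DCnv_E hc h hj
    have hE := DCnv_pos e1 e2 e3 hy
    have hE2 : det2 (WW c (j + 1) - WW c j) (y - vert c j) =
        (1 - (a + b)) * det2 (WW c j) (WW c (j + 1)) := by
      rw [← hF, hF2]
      simp only [det2, vert, Prod.fst_add, Prod.snd_add, Prod.fst_sub, Prod.snd_sub,
        Prod.smul_fst, Prod.smul_snd, smul_eq_mul]
      ring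
    rw [hE2] at hE
    have hlt : 0 < 1 - (a + b) := (pos_iff_pos_of_mul_pos hE).2 (DCnv_D hc hj)
    refine ⟨v, ⟨hv1, hv2, ?_⟩, hF⟩
    linarith

end Pool.Agent.MP4eed4eP
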