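import Pool.Agent.Lib.MP_4eed4e_an_P.PBase

set_option autoImplicit false

/-!
Project P, block D, module DAlg: algebra of the fan maps.

All statements are elementary identities. `Pr m j = (1 - t0 j, t0 j)`,
`det2 (Pr m j) (Pr m (j + 1)) = t0 (j + 1) - t0 j = 1 / (m + 1)`.
`WW c j = rr c j • (e1 + tt c j • (e2 - e1))` with `e1 = -pB c`, `e2 = pA c - pB c`, so
`det2 (WW c i) (WW c j) = rr_i rr_j ((1 - tt_i) tt_j - tt_i (1 - tt_j)) det2 e1 e2`.
`Jj c j = (m + 1)² (t0_{j+1} (1 - t0_j) - t0_j (1 - t0_{j+1})) det2 W_j W_{j+1} =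
(m + 1) det2 W_j W_{j+1}`. For `La_succ`, `Lb_succ`: `L_{j+1}` and `L_j` agree at `Pr (j + 1)`.
-/

namespace Pool.Agent.MP4eed4eP

open Set

/-- The determinant of the two sides at `p_0`. -/
noncomputable def DD {m : ℕ} (c : Par m) : ℝ := det2 (-pB c) (pA c - pB c)

theorem t0_zero (m : ℕ) : t0 m 0 = 0 := by
  rw [t0, Nat.cast_zero, zero_div]

theorem t0_last (m : ℕ) : t0 m (m + 1) = 1 := by
  have h : ((m : ℝ) + 1) ≠ 0 := by positivity
  rw [t0, Nat.cast_add, Nat.cast_one, div_self h]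

theorem t0_succ (m j : ℕ) : t0 m (j + 1) = t0 m j + 1 / ((m : ℝ) + 1) := by
  rw [t0, t0, Nat.cast_add, Nat.cast_one, add_div]

theorem t0_lt (m : ℕ) {i j : ℕ} (h : i < j) : t0 m i < t0 m j := by
  have h1 : (0 : ℝ) < (m : ℝ) + 1 := by positivity
  have h2 : (i : ℝ) < j := by exact_mod_cast h
  rw [t0, t0]
  exact div_lt_div_of_pos_right h2 h1

theorem t0_nonneg (m j : ℕ) : 0 ≤ t0 m j := by
  rw [t0]
  positivity

theorem tt_zero {m : ℕ} (c : Par m) : tt c 0 = 0 := by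
  rw [tt, dif_neg (by omega), if_pos rfl]

theorem tt_last {m : ℕ} (c : Par m) {j : ℕ} (h : m < j) : tt c j = 1 := by
  rw [tt, dif_neg (by omega), if_neg (by omega)]

theorem rr_zero {m : ℕ} (c : Par m) : rr c 0 = 1 := by
  rw [rr, dif_neg (by omega)]

theorem rr_last {m : ℕ} (c : Par m) {j : ℕ} (h : m < j) : rr c j = 1 := by
  rw [rr, dif_neg (by omega)]

theorem rr_pos {m : ℕ} {c : Par m} (hc : c ∈ CM m) (j : ℕ) : 0 < rr c j := by
  rw [rr]
  split_ifs with h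
  · exact hc.2.2.2 _
  · exact one_pos

theorem tt_lt {m : ℕ} {c : Par m} (hc : c ∈ CM m) {i j : ℕ} (h : i < j) (hj : j ≤ m + 1) :
    tt c i < tt c j := by
  obtain ⟨-, -, h1, -⟩ := hc
  induction j, h using Nat.le_induction with
  | base => exact h1 i (by omega)
  | succ k hk ih => exact (ih (by omega)).trans (h1 k (by omega))

theorem tt_mem {m : ℕ} {c : Par m} (hc : c ∈ CM m) (j : ℕ) : 0 ≤ tt c j ∧ tt c j ≤ 1 := by
  by_cases h0 : j = 0
  · subst h0
    rw [tt_zero]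
    exact ⟨le_rfl, zero_le_one⟩
  by_cases h1 : m < j
  · rw [tt_last c h1]
    exact ⟨zero_le_one, le_rfl⟩
  have h2 := tt_lt hc (i := 0) (j := j) (by omega) (by omega)
  have h3 := tt_lt hc (i := j) (j := m + 1) (by omega) le_rfl
  rw [tt_zero] at h2
  rw [tt_last c (Nat.lt_succ_self m)] at h3
  exact ⟨h2.le, h3.le⟩

theorem DD_eq {m : ℕ} (c : Par m) :
    DD c = c (iS m) / 2 * (c (iX m) - √3 * c (iY m)) := by
  simp only [DD, det2, pA, pB, Prod.fst_sub, Prod.snd_sub, Prod.fst_neg, Prod.snd_neg]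
  ring

theorem DD_pos {m : ℕ} {c : Par m} (hc : c ∈ CM m) : 0 < DD c := by
  rw [DD_eq]
  exact mul_pos (half_pos hc.1) hc.2.1

theorem det_WW {m : ℕ} (c : Par m) (i j : ℕ) :
    det2 (WW c i) (WW c j) = rr c i * rr c j * (tt c j - tt c i) * DD c := by
  simp only [DD, det2, WW, Prod.fst_sub, Prod.snd_sub, Prod.fst_neg, Prod.snd_neg, Prod.fst_add,
    Prod.snd_add, Prod.smul_fst, Prod.smul_snd, smul_eq_mul]
  ring

theorem det_WW_B {m : ℕ} (c : Par m) (j : ℕ) :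
    det2 (-pB c) (WW c j) = rr c j * tt c j * DD c := by
  simp only [DD, det2, WW, Prod.fst_sub, Prod.snd_sub, Prod.fst_neg, Prod.snd_neg, Prod.fst_add,
    Prod.snd_add, Prod.smul_fst, Prod.smul_snd, smul_eq_mul]
  ring

theorem det_WW_A {m : ℕ} (c : Par m) (j : ℕ) :
    det2 (WW c j) (pA c - pB c) = rr c j * (1 - tt c j) * DD c := by
  simp only [DD, det2, WW, Prod.fst_sub, Prod.snd_sub, Prod.fst_neg, Prod.snd_neg, Prod.fst_add,
    Prod.snd_add, Prod.smul_fst, Prod.smul_snd, smul_eq_mul]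
  ring

theorem det2_Pr (m j : ℕ) (v : P) : det2 (Pr m j) v = v.2 - t0 m j * (v.1 + v.2) := by
  simp only [det2, Pr]
  ring

theorem det2_Pr_Pr (m j : ℕ) : det2 (Pr m j) (Pr m (j + 1)) = 1 / ((m : ℝ) + 1) := by
  rw [det2_Pr]
  simp only [Pr]
  rw [t0_succ]
  ring

theorem Lj_eq {m : ℕ} (c : Par m) (j : ℕ) (v : P) :
    Lj c j v = (((m : ℝ) + 1) * (t0 m (j + 1) * (v.1 + v.2) - v.2)) • WW c j +
      (((m : ℝ) + 1) * (v.2 - t0 m j * (v.1 + v.2))) • WW c (j + 1) := by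
  apply Prod.ext
  · simp only [Lj, La, Lb, Prod.fst_sub, Prod.fst_add, Prod.smul_fst, smul_eq_mul]
    ring
  · simp only [Lj, La, Lb, Prod.snd_sub, Prod.snd_add, Prod.smul_snd, smul_eq_mul]
    ring

private theorem ds_t0 (m j : ℕ) : ((m : ℝ) + 1) * (t0 m (j + 1) - t0 m j) = 1 := by
  have h : ((m : ℝ) + 1) ≠ 0 := by positivity
  rw [t0_succ, add_sub_cancel_left, mul_one_div, div_self h]

theorem Lj_Pr {m : ℕ} (c : Par m) (j : ℕ) : Lj c j (Pr m j) = WW c j := by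
  rw [Lj_eq]
  have h1 : ((m : ℝ) + 1) * (t0 m (j + 1) * ((Pr m j).1 + (Pr m j).2) - (Pr m j).2) = 1 := by
    simp only [Pr]
    linear_combination ds_t0 m j
  have h2 : ((m : ℝ) + 1) * ((Pr m j).2 - t0 m j * ((Pr m j).1 + (Pr m j).2)) = 0 := by
    simp only [Pr]
    ring
  rw [h1, h2, one_smul, zero_smul, add_zero]

theorem Lj_Pr_succ {m : ℕ} (c : Par m) (j : ℕ) : Lj c j (Pr m (j + 1)) = WW c (j + 1) := by
  rw [Lj_eq]
  have h1 : ((m : ℝ) + 1) * (t0 m (j + 1) * ((Pr m (j + 1)).1 + (Pr m (j + 1)).2) -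
      (Pr m (j + 1)).2) = 0 := by
    simp only [Pr]
    ring
  have h2 : ((m : ℝ) + 1) * ((Pr m (j + 1)).2 - t0 m j * ((Pr m (j + 1)).1 +
      (Pr m (j + 1)).2)) = 1 := by
    simp only [Pr]
    linear_combination ds_t0 m j
  rw [h1, h2, one_smul, zero_smul, zero_add]

theorem Jj_eq {m : ℕ} (c : Par m) (j : ℕ) :
    Jj c j = ((m : ℝ) + 1) * rr c j * rr c (j + 1) * (tt c (j + 1) - tt c j) * DD c := by
  have h1 : Jj c j = ((m : ℝ) + 1) * (((m : ℝ) + 1) * (t0 m (j + 1) - t0 m j)) *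
      det2 (WW c j) (WW c (j + 1)) := by
    simp only [Jj, La, Lb, det2, Prod.fst_sub, Prod.snd_sub, Prod.smul_fst, Prod.smul_snd,
      smul_eq_mul]
    ring
  rw [h1, ds_t0, det_WW]
  ring

theorem Jj_pos {m : ℕ} {c : Par m} (hc : c ∈ CM m) {j : ℕ} (hj : j ≤ m) : 0 < Jj c j := by
  rw [Jj_eq]
  have h1 := tt_lt hc (Nat.lt_succ_self j) (by omega)
  have h2 : (0 : ℝ) < (m : ℝ) + 1 := by positivity
  exact mul_pos (mul_pos (mul_pos (mul_pos h2 (rr_pos hc j)) (rr_pos hc (j + 1)))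
    (sub_pos.2 h1)) (DD_pos hc)

private theorem ds_Bh {m : ℕ} (c : Par m) (j : ℕ) :
    Bh c (j + 1) = (Lb c (j + 1) - Lb c j) - (La c (j + 1) - La c j) := rfl

private theorem ds_agree {m : ℕ} (c : Par m) (j : ℕ) :
    (1 - t0 m (j + 1)) • La c (j + 1) + t0 m (j + 1) • Lb c (j + 1) =
      (1 - t0 m (j + 1)) • La c j + t0 m (j + 1) • Lb c j := by
  have h1 := Lj_Pr c (j + 1)
  have h2 := Lj_Pr_succ c j
  exact h1.trans h2.symm

theorem La_succ {m : ℕ} (c : Par m) (j : ℕ) :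
    La c (j + 1) = La c j - t0 m (j + 1) • Bh c (j + 1) := by
  have h := ds_agree c j
  rw [ds_Bh]
  have h1 := congrArg Prod.fst h
  have h2 := congrArg Prod.snd h
  simp only [Prod.fst_add, Prod.snd_add, Prod.smul_fst, Prod.smul_snd, smul_eq_mul] at h1 h2
  apply Prod.ext
  · simp only [Prod.fst_sub, Prod.smul_fst, smul_eq_mul]
    linear_combination h1
  · simp only [Prod.snd_sub, Prod.smul_snd, smul_eq_mul]
    linear_combination h2

theorem Lb_succ {m : ℕ} (c : Par m) (j : ℕ) :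
    Lb c (j + 1) = Lb c j + (1 - t0 m (j + 1)) • Bh c (j + 1) := by
  have h := ds_agree c j
  rw [ds_Bh]
  have h1 := congrArg Prod.fst h
  have h2 := congrArg Prod.snd h
  simp only [Prod.fst_add, Prod.snd_add, Prod.smul_fst, Prod.smul_snd, smul_eq_mul] at h1 h2
  apply Prod.ext
  · simp only [Prod.fst_add, Prod.fst_sub, Prod.smul_fst, smul_eq_mul]
    linear_combination h1
  · simp only [Prod.snd_add, Prod.snd_sub, Prod.smul_snd, smul_eq_mul]
    linear_combination h2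

theorem Lj_succ {m : ℕ} (c : Par m) (j : ℕ) (v : P) :
    Lj c (j + 1) v = Lj c j v + det2 (Pr m (j + 1)) v • Bh c (j + 1) := by
  rw [det2_Pr]
  have h1 := La_succ c j
  have h2 := Lb_succ c j
  have e1 := congrArg Prod.fst h1
  have e2 := congrArg Prod.snd h1
  have e3 := congrArg Prod.fst h2
  have e4 := congrArg Prod.snd h2
  simp only [Prod.fst_sub, Prod.snd_sub, Prod.fst_add, Prod.snd_add, Prod.smul_fst, Prod.smul_snd,
    smul_eq_mul] at e1 e2 e3 e4
  apply Prod.ext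
  · simp only [Lj, Prod.fst_add, Prod.smul_fst, smul_eq_mul]
    linear_combination v.1 * e1 + v.2 * e3
  · simp only [Lj, Prod.snd_add, Prod.smul_snd, smul_eq_mul]
    linear_combination v.1 * e2 + v.2 * e4

theorem det2_Lj {m : ℕ} (c : Par m) (j : ℕ) (v w : P) :
    det2 (Lj c j v) (Lj c j w) = Jj c j * det2 v w := by
  simp only [Lj, Jj, det2, Prod.fst_add, Prod.snd_add, Prod.smul_fst, Prod.smul_snd, smul_eq_mul]
  ring

end Pool.Agent.MP4eed4eP
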