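import Pool.Agent.Lib.MP_4eed4e_an_PD.DVar
import Pool.Agent.Lib.MP_4eed4e_an_PA.Df

set_option autoImplicit false

/-!
Project P, block D, module DChi: multiplication by the indicator functions of the sectors.

`exists_chi`: for `f : LL` the function `S.indicator f` (`S = Sec m j` measurable) is in `L²(Tri)`
(`MemLp.indicator`), the map `f ↦ toLp (S.indicator f)` is linear with norm `≤ 1`
(`LinearMap.mkContinuous`); `clT f` is the class of `f`.
`cut_chi`: symmetric, idempotent, orthogonal (`disj_Sec`) and with sum `1` (`ae_Sec`, `disj_Sec`):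
compute with representatives; it is enough to check the identities for `clT f` with `f` the
representative (`clT (f : P → ℝ) = f` for `f : LL`).
`norm_chi`: `‖chi (clT f)‖² = ∫_Tri (S.indicator f)² = ∫_S f²` (`inner_clT`, `S ⊆ Tri`).
-/

namespace Pool.Agent.MP4eed4eP

open MeasureTheory Set Filter Topology

private theorem dchi_ind {m j : ℕ} {f : P → ℝ} (hf : MemLp f 2 muT) :
    MemLp ((Sec m j).indicator f) 2 muT := hf.indicator (measurableSet_Sec m j)

private theorem dchi_congr (m j : ℕ) {f g : P → ℝ} (h : f =ᵐ[muT] g) :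
    (Sec m j).indicator f =ᵐ[muT] (Sec m j).indicator g := by
  filter_upwards [h] with x hx
  by_cases hs : x ∈ Sec m j
  · simp only [Set.indicator_of_mem hs, hx]
  · simp only [Set.indicator_of_notMem hs]

private noncomputable def dchiLin (m j : ℕ) : LL →ₗ[ℝ] LL where
  toFun f := clT ((Sec m j).indicator (f : P → ℝ))
  map_add' f g := by
    have h1 := dchi_ind (m := m) (j := j) (Lp.memLp f)
    have h2 := dchi_ind (m := m) (j := j) (Lp.memLp g)
    rw [← clT_add h1 h2, ← Set.indicator_add']
    exact clT_congr (dchi_ind (Lp.memLp (f + g))) (dchi_congr m j (Lp.coeFn_add f g))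
  map_smul' r f := by
    have h1 := dchi_ind (m := m) (j := j) (Lp.memLp f)
    have h2 : r • (Sec m j).indicator (f : P → ℝ) = (Sec m j).indicator (r • (f : P → ℝ)) :=
      (Set.indicator_const_smul (Sec m j) r (f : P → ℝ)).symm
    rw [RingHom.id_apply, ← clT_smul h1, h2]
    exact clT_congr (dchi_ind (Lp.memLp (r • f))) (dchi_congr m j (Lp.coeFn_smul r f))

private theorem dchi_norm (m j : ℕ) (f : LL) : ‖dchiLin m j f‖ ≤ 1 * ‖f‖ := by
  have h1 := dchi_ind (m := m) (j := j) (Lp.memLp f)
  change ‖clT ((Sec m j).indicator (f : P → ℝ))‖ ≤ 1 * ‖f‖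
  rw [clT_of_memLp h1, one_mul, Lp.norm_toLp, Lp.norm_def]
  exact ENNReal.toReal_mono (Lp.memLp f).2.ne (eLpNorm_indicator_le _)

theorem exists_chi (m j : ℕ) : ∃ χ : LL →L[ℝ] LL, ∀ f : P → ℝ, MemLp f 2 muT →
    χ (clT f) = clT ((Sec m j).indicator f) := by
  refine ⟨(dchiLin m j).mkContinuous 1 (dchi_norm m j), fun f hf => ?_⟩
  rw [LinearMap.mkContinuous_apply]
  change clT ((Sec m j).indicator (clT f : P → ℝ)) = clT ((Sec m j).indicator f)
  exact clT_congr (dchi_ind (Lp.memLp (clT f))) (dchi_congr m j (coeFn_clT hf))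

/-- Multiplication by the indicator function of the sector. -/
noncomputable def chi (m j : ℕ) : LL →L[ℝ] LL := Classical.choose (exists_chi m j)

theorem chi_clT {m j : ℕ} {f : P → ℝ} (hf : MemLp f 2 muT) :
    chi m j (clT f) = clT ((Sec m j).indicator f) :=
  Classical.choose_spec (exists_chi m j) f hf

theorem clT_coe (f : LL) : clT (f : P → ℝ) = f := by
  rw [clT_of_memLp (Lp.memLp f)]
  exact Lp.toLp_coeFn f (Lp.memLp f)

private theorem dchi_int (m j : ℕ) (h : P → ℝ) :
    ∫ v in Tri, (Sec m j).indicator h v = ∫ v in Sec m j, h v := by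
  rw [integral_indicator (measurableSet_Sec m j), Measure.restrict_restrict
    (measurableSet_Sec m j), Set.inter_eq_left.2 (Sec_subset_Tri m j)]

theorem inner_chi {m j : ℕ} {f g : P → ℝ} (hf : MemLp f 2 muT) (hg : MemLp g 2 muT) :
    (inner ℝ (chi m j (clT f)) (clT g) : ℝ) = ∫ v in Sec m j, f v * g v := by
  rw [chi_clT hf, inner_clT (dchi_ind hf) hg, ← dchi_int]
  congr 1
  ext v
  by_cases hs : v ∈ Sec m j
  · simp only [Set.indicator_of_mem hs]
  · simp only [Set.indicator_of_notMem hs, zero_mul]

theorem norm_chi {m j : ℕ} {f : P → ℝ} (hf : MemLp f 2 muT) :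
    ‖chi m j (clT f)‖ ^ 2 = ∫ v in Sec m j, f v ^ 2 := by
  rw [chi_clT hf, ← real_inner_self_eq_norm_sq, inner_clT (dchi_ind hf) (dchi_ind hf),
    ← dchi_int]
  congr 1
  ext v
  by_cases hs : v ∈ Sec m j
  · simp only [Set.indicator_of_mem hs, pow_two]
  · simp only [Set.indicator_of_notMem hs, zero_mul]

private theorem chi_apply (m j : ℕ) (f : LL) :
    chi m j f = clT ((Sec m j).indicator (f : P → ℝ)) := by
  conv_lhs => rw [← clT_coe f]
  exact chi_clT (Lp.memLp f)

theorem cut_chi (m : ℕ) : PA.Cut (fun j : Fin (m + 1) => chi m j) := by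
  refine ⟨fun j f g => ?_, fun j f => ?_, fun i j hij f => ?_, fun f => ?_⟩
  · have h1 : (inner ℝ (chi m j f) g : ℝ) = ∫ v in Sec m j, f v * g v := by
      have := inner_chi (m := m) (j := j) (Lp.memLp f) (Lp.memLp g)
      rwa [clT_coe, clT_coe] at this
    have h2 : (inner ℝ (chi m j g) f : ℝ) = ∫ v in Sec m j, g v * f v := by
      have := inner_chi (m := m) (j := j) (Lp.memLp g) (Lp.memLp f)
      rwa [clT_coe, clT_coe] at this
    rw [h1, real_inner_comm, h2]
    congr 1
    ext v
    ring
  · change chi m j (chi m j f) = chi m j f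
    rw [chi_apply m j f, chi_clT (dchi_ind (Lp.memLp f)), Set.indicator_indicator,
      Set.inter_self]
  · change chi m i (chi m j f) = 0
    have hne : (i : ℕ) ≠ (j : ℕ) := fun h => hij (Fin.ext h)
    rw [chi_apply m j f, chi_clT (dchi_ind (Lp.memLp f)), Set.indicator_indicator,
      (disj_Sec (m := m) hne).inter_eq, Set.indicator_empty]
    have h0 : MemLp (fun _ : P => (0 : ℝ)) 2 muT := MemLp.zero
    rw [clT_of_memLp h0]
    exact MemLp.toLp_zero h0
  · change ∑ j : Fin (m + 1), chi m j f = f
    have hsum : ∀ s : Finset (Fin (m + 1)), MemLp (fun v => ∑ j ∈ s,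
        (Sec m j).indicator (f : P → ℝ) v) 2 muT ∧ (∑ j ∈ s, chi m j f) =
        clT (fun v => ∑ j ∈ s, (Sec m j).indicator (f : P → ℝ) v) := by
      intro s
      classical
      induction s using Finset.induction_on with
      | empty =>
        refine ⟨by simp, ?_⟩
        have h0 : MemLp (fun _ : P => (0 : ℝ)) 2 muT := MemLp.zero
        simp only [Finset.sum_empty]
        rw [clT_of_memLp h0]
        exact (MemLp.toLp_zero h0).symm
      | insert a s ha ih =>
        obtain ⟨i1, i2⟩ := ih
        have e : (fun v => ∑ j ∈ insert a s, (Sec m j).indicator (f : P → ℝ) v) =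
            (Sec m a).indicator (f : P → ℝ) +
              fun v => ∑ j ∈ s, (Sec m j).indicator (f : P → ℝ) v := by
          ext v
          rw [Pi.add_apply, Finset.sum_insert ha]
        have h1 := dchi_ind (m := m) (j := (a : ℕ)) (Lp.memLp f)
        rw [e]
        refine ⟨h1.add i1, ?_⟩
        rw [Finset.sum_insert ha, i2, clT_add h1 i1, chi_apply]
    obtain ⟨i1, i2⟩ := hsum Finset.univ
    rw [i2]
    conv_rhs => rw [← clT_coe f]
    refine clT_congr i1 ?_
    filter_upwards [ae_Sec m] with v hv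
    obtain ⟨j, hj⟩ := hv
    rw [Finset.sum_eq_single j]
    · exact Set.indicator_of_mem hj _
    · intro b _ hb
      have hne : (b : ℕ) ≠ (j : ℕ) := fun h => hb (Fin.ext h)
      exact Set.indicator_of_notMem
        (fun hvb => Set.disjoint_left.1 (disj_Sec (m := m) hne) hvb hj) _
    · intro h
      exact absurd (Finset.mem_univ j) h

end Pool.Agent.MP4eed4eP
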