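import Pool.Agent.Lib.MP_4eed4e_an_PD.DAlg

set_option autoImplicit false

/-!
Project P, block D, module DFan: the fan map on the sectors.

`Fm_CS`: for `v` in the closed cone over the sector `j` one has `det2 (Pr m i) v = v.2 - t0 i (v.1
+ v.2)`, which is `≥ 0` for `i ≤ j` and `≤ 0` for `i > j` (`t0` increasing, `v.1 + v.2 ≥ 0`). So in
the sum of the definition of `Fm` exactly the terms `1 ≤ i ≤ j` survive (the others are `0`), and
by `Lj_succ` and induction `Lj c 0 v + ∑_{i=1}^j det2 (Pr m i) v • Bh c i = Lj c j v`.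
`exists_CS`: the intervals `[t0 j, t0 (j + 1)]`, `j ≤ m`, cover `[0, 1]`; take the largest `j ≤ m`
with `t0 j (v.1 + v.2) ≤ v.2` (`j = 0` is possible, and for `j = m` the upper bound is `t0 (m + 1)
= 1`). `lipschitz_Fm`: `Fm` is a finite sum of Lipschitz maps (`max 0` of a linear functional,
times a vector). -/

namespace Pool.Agent.MP4eed4eP

open Set

/-- The closed quadrant. -/
def Quad : Set P := {v | 0 ≤ v.1 ∧ 0 ≤ v.2}

/-- The closed cone over the sector `j`. -/
def CS (m j : ℕ) : Set P :=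
  {v | v ∈ Quad ∧ t0 m j * (v.1 + v.2) ≤ v.2 ∧ v.2 ≤ t0 m (j + 1) * (v.1 + v.2)}

private theorem df_t0_le (m : ℕ) {i j : ℕ} (h : i ≤ j) : t0 m i ≤ t0 m j := by
  rcases h.eq_or_lt with h1 | h1
  · rw [h1]
  · exact (t0_lt m h1).le

private theorem df_sum {m : ℕ} (c : Par m) (v : P) (j : ℕ) :
    Lj c 0 v + ∑ i ∈ Finset.Icc 1 j, det2 (Pr m i) v • Bh c i = Lj c j v := by
  induction j with
  | zero => simp
  | succ k ih =>
    rw [Finset.sum_Icc_succ_top (by omega), ← add_assoc, ih, ← Lj_succ]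

theorem Fm_CS {m : ℕ} (c : Par m) {j : ℕ} (hj : j ≤ m) {v : P} (hv : v ∈ CS m j) :
    Fm c v = pB c + Lj c j v := by
  obtain ⟨⟨h1, h2⟩, h3, h4⟩ := hv
  have h0 : 0 ≤ v.1 + v.2 := add_nonneg h1 h2
  have hpos : ∀ i, i ≤ j → 0 ≤ det2 (Pr m i) v := by
    intro i hi
    rw [det2_Pr, sub_nonneg]
    exact (mul_le_mul_of_nonneg_right (df_t0_le m hi) h0).trans h3
  have hneg : ∀ i, j < i → det2 (Pr m i) v ≤ 0 := by
    intro i hi
    rw [det2_Pr, sub_nonpos]
    exact h4.trans (mul_le_mul_of_nonneg_right (df_t0_le m hi) h0)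
  have hsub : Finset.Icc 1 j ⊆ Finset.Icc 1 m := Finset.Icc_subset_Icc le_rfl hj
  have hs : ∑ i ∈ Finset.Icc 1 m, max 0 (det2 (Pr m i) v) • Bh c i =
      ∑ i ∈ Finset.Icc 1 j, det2 (Pr m i) v • Bh c i := by
    rw [← Finset.sum_subset hsub (f := fun i => max 0 (det2 (Pr m i) v) • Bh c i)]
    · refine Finset.sum_congr rfl fun i hi => ?_
      rw [max_eq_right (hpos i (Finset.mem_Icc.1 hi).2)]
    · intro i hi hi'
      rw [Finset.mem_Icc] at hi hi'
      have hji : j < i := by omega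
      show max 0 (det2 (Pr m i) v) • Bh c i = 0
      rw [max_eq_left (hneg i hji), zero_smul]
  rw [Fm, hs, add_assoc, df_sum]

theorem exists_CS (m : ℕ) {v : P} (hv : v ∈ Quad) : ∃ j ≤ m, v ∈ CS m j := by
  classical
  let p : ℕ → Prop := fun j => t0 m j * (v.1 + v.2) ≤ v.2
  have hp0 : p 0 := by
    show t0 m 0 * (v.1 + v.2) ≤ v.2
    rw [t0_zero, zero_mul]
    exact hv.2
  have h1 : p (Nat.findGreatest p m) := Nat.findGreatest_spec (Nat.zero_le m) hp0
  have h2 : Nat.findGreatest p m ≤ m := Nat.findGreatest_le m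
  refine ⟨Nat.findGreatest p m, h2, hv, h1, ?_⟩
  rcases h2.eq_or_lt with h3 | h3
  · rw [h3, t0_last, one_mul]
    exact le_add_of_nonneg_left hv.1
  · have h4 : ¬ p (Nat.findGreatest p m + 1) :=
      Nat.findGreatest_is_greatest (Nat.lt_succ_self _) h3
    exact (not_le.1 h4).le

theorem Tri_subset_Quad : Tri ⊆ Quad := fun _ hv => ⟨hv.1.le, hv.2.1.le⟩

theorem Sec_subset_CS (m j : ℕ) : Sec m j ⊆ CS m j :=
  fun _ hv => ⟨Tri_subset_Quad hv.1, hv.2.1.le, hv.2.2.le⟩

theorem Fm_Sec {m : ℕ} (c : Par m) {j : ℕ} (hj : j ≤ m) {v : P} (hv : v ∈ Sec m j) :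
    Fm c v = pB c + Lj c j v := Fm_CS c hj (Sec_subset_CS m j hv)

theorem isOpen_Sec (m j : ℕ) : IsOpen (Sec m j) := by
  have h1 : IsOpen {v : P | 0 < v.1} := isOpen_lt continuous_const continuous_fst
  have h2 : IsOpen {v : P | 0 < v.2} := isOpen_lt continuous_const continuous_snd
  have h3 : IsOpen {v : P | v.1 + v.2 < 1} :=
    isOpen_lt (continuous_fst.add continuous_snd) continuous_const
  have h4 : IsOpen {v : P | t0 m j * (v.1 + v.2) < v.2} :=
    isOpen_lt (continuous_const.mul (continuous_fst.add continuous_snd)) continuous_snd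
  have h5 : IsOpen {v : P | v.2 < t0 m (j + 1) * (v.1 + v.2)} :=
    isOpen_lt continuous_snd (continuous_const.mul (continuous_fst.add continuous_snd))
  exact (h1.inter (h2.inter h3)).inter (h4.inter h5)

private theorem df_lip_sum {ι : Type*} (s : Finset ι) (f : ι → P → P)
    (h : ∀ i ∈ s, ∃ K, LipschitzWith K (f i)) :
    ∃ K, LipschitzWith K fun v => ∑ i ∈ s, f i v := by
  classical
  induction s using Finset.induction_on with
  | empty =>
    refine ⟨0, ?_⟩
    simp only [Finset.sum_empty]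
    exact LipschitzWith.const 0
  | insert a s ha ih =>
    obtain ⟨K1, hK1⟩ := h a (Finset.mem_insert_self a s)
    obtain ⟨K2, hK2⟩ := ih fun i hi => h i (Finset.mem_insert_of_mem hi)
    refine ⟨K1 + K2, ?_⟩
    simp only [Finset.sum_insert ha]
    exact hK1.add hK2

theorem lipschitz_Fm {m : ℕ} (c : Par m) : ∃ K, LipschitzWith K (Fm c) := by
  have h1 := ((ContinuousLinearMap.fst ℝ ℝ ℝ).smulRight (La c 0)).lipschitz
  have h2 := ((ContinuousLinearMap.snd ℝ ℝ ℝ).smulRight (Lb c 0)).lipschitz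
  obtain ⟨K, hK⟩ := df_lip_sum (Finset.Icc 1 m)
    (fun j v => max 0 (det2 (Pr m j) v) • Bh c j) (by
      intro j _
      have h3 := ((Pr m j).1 • ContinuousLinearMap.snd ℝ ℝ ℝ -
        (Pr m j).2 • ContinuousLinearMap.fst ℝ ℝ ℝ).lipschitz
      have h4 := (ContinuousLinearMap.toSpanSingleton ℝ (Bh c j)).lipschitz
      exact ⟨_, h4.comp (h3.const_max 0)⟩)
  exact ⟨_, ((LipschitzWith.const (pB c)).add (h1.add h2)).add hK⟩

end Pool.Agent.MP4eed4eP
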