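import Pool.Agent.Lib.MP_4eed4e_an_PD.DFan

set_option autoImplicit false

/-!
Project P, block D, module DInv: the Lipschitz inverse of the fan map.

Let `c ∈ CM m`. The inverse of the linear map `Lj c j` (`j ≤ m`, determinant `Jj c j > 0`) is
`Li j y = (det2 y (Lb c j) / Jj c j, det2 (La c j) y / Jj c j)`. `Li j (WW j) = Pr j`,
`Li j (WW (j + 1)) = Pr (j + 1)`. For `1 ≤ j ≤ m` the linear maps `Li j` and `Li (j - 1)` agree at
`WW j ≠ 0`, so `Li j y - Li (j - 1) y = det2 (WW j) y • B' j` with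
`B' j = (det2 (WW j) (WW (j + 1)))⁻¹ • (Pr (j + 1) - Li (j - 1) (WW (j + 1)))`. Put
`G y = Li 0 (y - pB) + ∑ j ∈ Icc 1 m, max 0 (det2 (WW j) (y - pB)) • B' j`: a Lipschitz map.
* Let `v ∈ Quad`, `v ∈ CS m j`. Then `Fm c v - pB = Lj c j v` is a combination of `WW j` and `WW (j
+ 1)` with   coefficients `≥ 0` (`Lj_eq`), so `det2 (WW i) (Fm c v - pB) ≥ 0` for `i ≤ j` and `≤ 0`
for `i > j`   (`det_WW`, `tt_lt`), and telescoping `G (Fm c v) = Li j (Lj c j v) = v`.
* Let `y ∈ Cone c`, `z = y - pB c`, so `det2 z (pA - pB) > 0` and `det2 (-pB) z > 0`. Since `WW 0 =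
-pB`,   `WW (m + 1) = pA - pB` (`rr = 1`), there is `j ≤ m` with `det2 (WW j) z ≥ 0` and
  `det2 (WW (j + 1)) z ≤ 0` (the largest `j ≤ m` with `det2 (WW j) z ≥ 0`). By Cramer's rule
  `z = α WW j + β WW (j + 1)` with `α = det2 z (WW (j+1)) / det2 (WW j) (WW (j+1)) ≥ 0`,
  `β = det2 (WW j) z / .. ≥ 0`. Put `v = α Pr j + β Pr (j + 1) ∈ CS m j`. Then `Fm c v = pB + Lj c
j v = y`, so   `G y = G (Fm c v) = v` by the first part, and `Fm c (G y) = y`. `v.1 > 0` and `v.2 >
0`: `v ∈ Quad`; if `v.1 = 0`   then `v = v.2 • Pr (m + 1)`, `v ∈ CS m m`, `z = v.2 • WW (m + 1)`,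
so `det2 z (pA - pB) = 0`, a contradiction;   the same for `v.2 = 0` with `Pr 0`, `WW 0`.
* `Fm_Cone`: for `v.1, v.2 > 0`, `v ∈ CS m j`: `Fm c v - pB = α WW j + β WW (j + 1)` with `α, β ≥
0` as in `Lj_eq`,   not both zero. `det2 (WW i) (pA - pB) = rr_i (1 - tt_i) DD > 0` for `i ≤ m`, `=
0` for `i = m + 1`; so the   determinant is positive unless `j = m`, `α = 0`, which means `v.2 =
v.1 + v.2`, `v.1 = 0`. The same for the   other determinant (`det_WW_B`).
-/

namespace Pool.Agent.MP4eed4eP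

open Set

/-- The open cone at `p_0` spanned by the two sides. -/
def Cone {m : ℕ} (c : Par m) : Set P :=
  {y | 0 < det2 (y - pB c) (pA c - pB c) ∧ 0 < det2 (-pB c) (y - pB c)}

private theorem DInv_addr (u v w : P) : det2 u (v + w) = det2 u v + det2 u w := by
  simp only [det2, Prod.fst_add, Prod.snd_add]
  ring

private theorem DInv_smulr (a : ℝ) (u v : P) : det2 u (a • v) = a * det2 u v := by
  simp only [det2, Prod.smul_fst, Prod.smul_snd, smul_eq_mul]
  ring

private theorem DInv_addl (u v w : P) : det2 (u + v) w = det2 u w + det2 v w := by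
  simp only [det2, Prod.fst_add, Prod.snd_add]
  ring

private theorem DInv_smull (a : ℝ) (u v : P) : det2 (a • u) v = a * det2 u v := by
  simp only [det2, Prod.smul_fst, Prod.smul_snd, smul_eq_mul]
  ring

private theorem DInv_self (u : P) : det2 u u = 0 := by
  simp only [det2]
  ring

private theorem DInv_swap (u v : P) : det2 u v = -det2 v u := by
  simp only [det2]
  ring

private theorem DInv_cramer (u w y : P) : det2 u w • y = det2 y w • u + det2 u y • w := by
  apply Prod.ext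
  · simp only [det2, Prod.smul_fst, Prod.fst_add, smul_eq_mul]
    ring
  · simp only [det2, Prod.smul_snd, Prod.snd_add, smul_eq_mul]
    ring

/-- The inverse of `Lj c j`. -/
private noncomputable def DInvL {m : ℕ} (c : Par m) (j : ℕ) : P →ₗ[ℝ] P where
  toFun y := (det2 y (Lb c j) / Jj c j, det2 (La c j) y / Jj c j)
  map_add' x y := by
    rw [DInv_addl, DInv_addr, add_div, add_div]
    rfl
  map_smul' a x := by
    rw [DInv_smull, DInv_smulr, mul_div_assoc, mul_div_assoc]
    rfl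

private theorem DInvL_Lj {m : ℕ} {c : Par m} {j : ℕ} (h : Jj c j ≠ 0) (v : P) :
    DInvL c j (Lj c j v) = v := by
  show (det2 (Lj c j v) (Lb c j) / Jj c j, det2 (La c j) (Lj c j v) / Jj c j) = v
  rw [Lj, DInv_addl, DInv_smull, DInv_smull, DInv_self, DInv_addr, DInv_smulr, DInv_smulr,
    DInv_self, mul_zero, mul_zero, add_zero, zero_add]
  have h1 : det2 (La c j) (Lb c j) = Jj c j := rfl
  rw [h1, mul_div_cancel_right₀ _ h, mul_div_cancel_right₀ _ h]

private theorem DInv_D {m : ℕ} {c : Par m} (hc : c ∈ CM m) {j : ℕ} (hj : j ≤ m) :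
    0 < det2 (WW c j) (WW c (j + 1)) := by
  rw [det_WW]
  have h1 := rr_pos hc j
  have h2 := rr_pos hc (j + 1)
  have h3 := tt_lt hc (Nat.lt_succ_self j) (by omega : j + 1 ≤ m + 1)
  have h4 := DD_pos hc
  have h5 : 0 < tt c (j + 1) - tt c j := sub_pos.2 h3
  positivity

/-- The hinge vectors of the inverse. -/
private noncomputable def DInvB {m : ℕ} (c : Par m) (j : ℕ) : P :=
  (det2 (WW c j) (WW c (j + 1)))⁻¹ • (Pr m (j + 1) - DInvL c (j - 1) (WW c (j + 1)))

private theorem DInvL_step {m : ℕ} {c : Par m} (hc : c ∈ CM m) {j : ℕ} (hj : j + 1 ≤ m) (y : P) :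
    DInvL c (j + 1) y = DInvL c j y + det2 (WW c (j + 1)) y • DInvB c (j + 1) := by
  have hD := DInv_D hc hj
  have hJ := (Jj_pos hc hj).ne'
  have hJ' := (Jj_pos hc (by omega : j ≤ m)).ne'
  have h1 : DInvL c (j + 1) (WW c (j + 1)) = Pr m (j + 1) := by
    rw [← Lj_Pr, DInvL_Lj hJ]
  have h2 : DInvL c (j + 1) (WW c (j + 1 + 1)) = Pr m (j + 1 + 1) := by
    rw [← Lj_Pr_succ, DInvL_Lj hJ]
  have h3 : DInvL c j (WW c (j + 1)) = Pr m (j + 1) := by
    rw [← Lj_Pr_succ, DInvL_Lj hJ']
  have hy := DInv_cramer (WW c (j + 1)) (WW c (j + 1 + 1)) y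
  have e1 : det2 (WW c (j + 1)) (WW c (j + 1 + 1)) • DInvL c (j + 1) y =
      det2 y (WW c (j + 1 + 1)) • Pr m (j + 1) + det2 (WW c (j + 1)) y • Pr m (j + 1 + 1) := by
    rw [← map_smul, hy, map_add, map_smul, map_smul, h1, h2]
  have e2 : det2 (WW c (j + 1)) (WW c (j + 1 + 1)) • DInvL c j y =
      det2 y (WW c (j + 1 + 1)) • Pr m (j + 1) +
        det2 (WW c (j + 1)) y • DInvL c j (WW c (j + 1 + 1)) := by
    rw [← map_smul, hy, map_add, map_smul, map_smul, h3]
  have h4 : j + 1 - 1 = j := by omega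
  have h5 : det2 (WW c (j + 1)) (WW c (j + 1 + 1)) • DInvL c (j + 1) y =
      det2 (WW c (j + 1)) (WW c (j + 1 + 1)) •
        (DInvL c j y + det2 (WW c (j + 1)) y • DInvB c (j + 1)) := by
    rw [smul_add, e1, e2, DInvB, h4, smul_comm (det2 (WW c (j + 1)) (WW c (j + 1 + 1))),
      smul_inv_smul₀ hD.ne', smul_sub]
    abel
  exact smul_right_injective P hD.ne' h5

private theorem DInv_tele {m : ℕ} {c : Par m} (hc : c ∈ CM m) (y : P) {j : ℕ} (hj : j ≤ m) :
    DInvL c 0 y + ∑ i ∈ Finset.Icc 1 j, det2 (WW c i) y • DInvB c i = DInvL c j y := by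
  induction j with
  | zero => simp
  | succ j ih =>
    rw [Finset.sum_Icc_succ_top (by omega), ← add_assoc, ih (by omega), DInvL_step hc hj]

/-- The inverse of the fan map. -/
private noncomputable def DInvG {m : ℕ} (c : Par m) (y : P) : P :=
  DInvL c 0 (y - pB c) +
    ∑ j ∈ Finset.Icc 1 m, max 0 (det2 (WW c j) (y - pB c)) • DInvB c j

private theorem DInv_lip {m : ℕ} (c : Par m) : ∃ K, LipschitzWith K (DInvG c) := by
  have hsub : LipschitzWith 1 (fun y : P => y - pB c) := by
    refine LipschitzWith.of_dist_le_mul fun x y => ?_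
    rw [dist_sub_right, NNReal.coe_one, one_mul]
  have hlin : ∀ L : P →ₗ[ℝ] P, ∃ K, LipschitzWith K (fun y : P => L (y - pB c)) := fun L =>
    ⟨_, (LinearMap.toContinuousLinearMap L).lipschitz.comp hsub⟩
  have hterm : ∀ (u b : P), ∃ K, LipschitzWith K
      (fun y : P => max 0 (det2 u (y - pB c)) • b) := by
    intro u b
    have hl : ∃ L : P →ₗ[ℝ] ℝ, ∀ y, L y = det2 u y :=
      ⟨{ toFun := fun y => det2 u y, map_add' := fun x y => DInv_addr u x y,
         map_smul' := fun a x => DInv_smulr a u x }, fun _ => rfl⟩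
    obtain ⟨L, hL⟩ := hl
    have h1 := (LinearMap.toContinuousLinearMap L).lipschitz.comp hsub
    have h2 := h1.const_max 0
    have h3 := (ContinuousLinearMap.toSpanSingleton ℝ b).lipschitz.comp h2
    have h4 : (fun y : P => max 0 (det2 u (y - pB c)) • b) =
        fun y : P => max 0 (L (y - pB c)) • b := by
      funext y
      rw [hL]
    rw [h4]
    exact ⟨_, h3⟩
  have hsum : ∀ s : Finset ℕ, ∃ K, LipschitzWith K
      (fun y : P => ∑ j ∈ s, max 0 (det2 (WW c j) (y - pB c)) • DInvB c j) := by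
    intro s
    induction s using Finset.induction_on with
    | empty => exact ⟨0, by simp⟩
    | insert a s ha ih =>
      obtain ⟨K1, h1⟩ := ih
      obtain ⟨K2, h2⟩ := hterm (WW c a) (DInvB c a)
      refine ⟨K2 + K1, ?_⟩
      simp only [Finset.sum_insert ha]
      exact h2.add h1
  obtain ⟨K1, h1⟩ := hlin (DInvL c 0)
  obtain ⟨K2, h2⟩ := hsum (Finset.Icc 1 m)
  exact ⟨K1 + K2, h1.add h2⟩

private theorem DInv_left {m : ℕ} {c : Par m} (hc : c ∈ CM m) {j : ℕ} (hj : j ≤ m) {v : P}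
    (hv : v ∈ CS m j) : DInvG c (Fm c v) = v := by
  have hJ := (Jj_pos hc hj).ne'
  have hDD := DD_pos hc
  have hm : (0 : ℝ) < (m : ℝ) + 1 := by positivity
  have ha : 0 ≤ ((m : ℝ) + 1) * (t0 m (j + 1) * (v.1 + v.2) - v.2) :=
    mul_nonneg hm.le (sub_nonneg.2 hv.2.2)
  have hb : 0 ≤ ((m : ℝ) + 1) * (v.2 - t0 m j * (v.1 + v.2)) :=
    mul_nonneg hm.le (sub_nonneg.2 hv.2.1)
  have htt : ∀ i k : ℕ, i ≤ k → k ≤ m + 1 → tt c i ≤ tt c k := by
    intro i k hik hk
    rcases eq_or_lt_of_le hik with h | h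
    · rw [h]
    · exact (tt_lt hc h hk).le
  rw [DInvG, Fm_CS c hj hv, add_sub_cancel_left]
  have h1 : ∑ i ∈ Finset.Icc 1 m, max 0 (det2 (WW c i) (Lj c j v)) • DInvB c i =
      ∑ i ∈ Finset.Icc 1 j, det2 (WW c i) (Lj c j v) • DInvB c i := by
    have h2 : ∑ i ∈ Finset.Icc 1 j, det2 (WW c i) (Lj c j v) • DInvB c i =
        ∑ i ∈ Finset.Icc 1 j, max 0 (det2 (WW c i) (Lj c j v)) • DInvB c i := by
      refine Finset.sum_congr rfl fun i hi => ?_
      have hij := (Finset.mem_Icc.1 hi).2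
      rw [max_eq_right]
      rw [Lj_eq, DInv_addr, DInv_smulr, DInv_smulr, det_WW, det_WW]
      have t1 := sub_nonneg.2 (htt i j hij (by omega))
      have t2 := sub_nonneg.2 (htt i (j + 1) (by omega) (by omega))
      have r1 := (rr_pos hc i).le
      have r2 := (rr_pos hc j).le
      have r3 := (rr_pos hc (j + 1)).le
      exact add_nonneg (mul_nonneg ha (mul_nonneg (mul_nonneg (mul_nonneg r1 r2) t1) hDD.le))
        (mul_nonneg hb (mul_nonneg (mul_nonneg (mul_nonneg r1 r3) t2) hDD.le))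
    rw [h2]
    symm
    refine Finset.sum_subset (Finset.Icc_subset_Icc_right hj) fun i hi hi' => ?_
    have hi1 := (Finset.mem_Icc.1 hi).1
    have hi2 := (Finset.mem_Icc.1 hi).2
    have hij : j + 1 ≤ i := by
      by_contra hcon
      exact hi' (Finset.mem_Icc.2 ⟨hi1, by omega⟩)
    rw [max_eq_left, zero_smul]
    rw [Lj_eq, DInv_addr, DInv_smulr, DInv_smulr, det_WW, det_WW]
    have t1 := sub_nonneg.2 (htt j i (by omega) (by omega))
    have t2 := sub_nonneg.2 (htt (j + 1) i hij (by omega))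
    have r1 := (rr_pos hc i).le
    have r2 := (rr_pos hc j).le
    have r3 := (rr_pos hc (j + 1)).le
    have p1 := mul_nonneg ha (mul_nonneg (mul_nonneg (mul_nonneg r1 r2) t1) hDD.le)
    have p2 := mul_nonneg hb (mul_nonneg (mul_nonneg (mul_nonneg r1 r3) t2) hDD.le)
    linarith
  rw [h1, DInv_tele hc _ hj, DInvL_Lj hJ]

private theorem DInv_WW0 {m : ℕ} (c : Par m) : WW c 0 = -pB c := by
  rw [WW, rr_zero, tt_zero]
  simp

private theorem DInv_WWl {m : ℕ} (c : Par m) : WW c (m + 1) = pA c - pB c := by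
  rw [WW, rr_last c (Nat.lt_succ_self m), tt_last c (Nat.lt_succ_self m)]
  simp

theorem exists_Gm {m : ℕ} {c : Par m} (hc : c ∈ CM m) :
    ∃ G : P → P, (∃ K, LipschitzWith K G) ∧ (∀ v ∈ Quad, G (Fm c v) = v) ∧
      ∀ y ∈ Cone c, 0 < (G y).1 ∧ 0 < (G y).2 ∧ Fm c (G y) = y := by
  refine ⟨DInvG c, DInv_lip c, ?_, ?_⟩
  · intro v hv
    obtain ⟨j, hj, hvj⟩ := exists_CS m hv
    exact DInv_left hc hj hvj
  · intro y hy
    obtain ⟨hy1, hy2⟩ := hy
    obtain ⟨z, hz⟩ : ∃ z : P, z = y - pB c := ⟨_, rfl⟩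
    rw [← hz] at hy1 hy2
    have hex : ∃ j ≤ m, 0 ≤ det2 (WW c j) z ∧ det2 (WW c (j + 1)) z ≤ 0 := by
      by_contra hcon
      push Not at hcon
      have h1 : ∀ j, j ≤ m + 1 → 0 ≤ det2 (WW c j) z := by
        intro j
        induction j with
        | zero =>
          intro _
          rw [DInv_WW0]
          exact hy2.le
        | succ j ih =>
          intro hj
          exact (hcon j (by omega) (ih (by omega))).le
      have h2 := h1 (m + 1) le_rfl
      rw [DInv_WWl, DInv_swap] at h2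
      linarith
    obtain ⟨j, hj, hj1, hj2⟩ := hex
    have hD := DInv_D hc hj
    have hcr := DInv_cramer (WW c j) (WW c (j + 1)) z
    obtain ⟨α, hα⟩ : ∃ α : ℝ, α = det2 z (WW c (j + 1)) / det2 (WW c j) (WW c (j + 1)) :=
      ⟨_, rfl⟩
    obtain ⟨β, hβ⟩ : ∃ β : ℝ, β = det2 (WW c j) z / det2 (WW c j) (WW c (j + 1)) := ⟨_, rfl⟩
    have hα0 : 0 ≤ α := by
      rw [hα, DInv_swap z]
      exact div_nonneg (by linarith) hD.le
    have hβ0 : 0 ≤ β := by
      rw [hβ]
      exact div_nonneg hj1 hD.le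
    have hzab : z = α • WW c j + β • WW c (j + 1) := by
      apply smul_right_injective P hD.ne'
      show det2 (WW c j) (WW c (j + 1)) • z = det2 (WW c j) (WW c (j + 1)) • _
      rw [hcr, smul_add, smul_smul, smul_smul, hα, hβ, mul_div_cancel₀ _ hD.ne',
        mul_div_cancel₀ _ hD.ne']
    have ht0 := t0_nonneg m j
    have ht1 : t0 m j < 1 := by
      rw [← t0_last m]
      exact t0_lt m (by omega)
    have ht2 : t0 m j < t0 m (j + 1) := t0_lt m (Nat.lt_succ_self j)
    have ht3 : t0 m (j + 1) ≤ 1 := by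
      rcases eq_or_lt_of_le hj with h | h
      · rw [h, t0_last]
      · rw [← t0_last m]
        exact (t0_lt m (by omega)).le
    obtain ⟨v, hv⟩ : ∃ v : P, v = α • Pr m j + β • Pr m (j + 1) := ⟨_, rfl⟩
    have hv1 : v.1 = α * (1 - t0 m j) + β * (1 - t0 m (j + 1)) := by
      rw [hv]
      rfl
    have hv2 : v.2 = α * t0 m j + β * t0 m (j + 1) := by
      rw [hv]
      rfl
    have hv10 : 0 ≤ v.1 := by
      rw [hv1]
      exact add_nonneg (mul_nonneg hα0 (by linarith)) (mul_nonneg hβ0 (by linarith))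
    have hv20 : 0 ≤ v.2 := by
      rw [hv2]
      exact add_nonneg (mul_nonneg hα0 (by linarith)) (mul_nonneg hβ0 (by linarith))
    have hvs : v.1 + v.2 = α + β := by
      rw [hv1, hv2]
      ring
    have hvCS : v ∈ CS m j := by
      refine ⟨⟨hv10, hv20⟩, ?_, ?_⟩
      · rw [hvs, hv2]
        nlinarith
      · rw [hvs, hv2]
        nlinarith
    have hLv : Lj c j v = z := by
      have h1 : Lj c j v = α • Lj c j (Pr m j) + β • Lj c j (Pr m (j + 1)) := by
        rw [hv]
        simp only [Lj, Prod.fst_add, Prod.snd_add, Prod.smul_fst, Prod.smul_snd, smul_eq_mul]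
        module
      rw [h1, Lj_Pr, Lj_Pr_succ, hzab]
    have hFv : Fm c v = y := by
      rw [Fm_CS c hj hvCS, hLv, hz]
      abel
    have hGy : DInvG c y = v := by
      rw [← hFv, DInv_left hc hj hvCS]
    rw [hGy]
    have hDD := DD_pos hc
    have hr1 := rr_pos hc j
    have hr2 := rr_pos hc (j + 1)
    refine ⟨?_, ?_, hFv⟩
    · rcases eq_or_lt_of_le hv10 with h | h
      · exfalso
        rw [hv1] at h
        have h1 : 0 ≤ α * (1 - t0 m j) := mul_nonneg hα0 (by linarith)
        have h2 : 0 ≤ β * (1 - t0 m (j + 1)) := mul_nonneg hβ0 (by linarith)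
        have h3 : α * (1 - t0 m j) = 0 := by linarith
        have h4 : β * (1 - t0 m (j + 1)) = 0 := by linarith
        have h5 : α = 0 := (mul_eq_zero.1 h3).resolve_right (by linarith)
        have h6 : det2 z (pA c - pB c) = 0 := by
          rw [hzab, DInv_addl, DInv_smull, DInv_smull, det_WW_A, det_WW_A, h5, zero_mul,
            zero_add]
          rcases mul_eq_zero.1 h4 with h7 | h7
          · rw [h7, zero_mul]
          · have h8 : j = m := by
              by_contra hne
              have h9 : t0 m (j + 1) < t0 m (m + 1) := t0_lt m (by omega)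
              rw [t0_last] at h9
              linarith
            rw [h8, tt_last c (Nat.lt_succ_self m)]
            ring
        linarith
      · exact h
    · rcases eq_or_lt_of_le hv20 with h | h
      · exfalso
        rw [hv2] at h
        have h1 : 0 ≤ α * t0 m j := mul_nonneg hα0 ht0
        have h2 : 0 ≤ β * t0 m (j + 1) := mul_nonneg hβ0 (by linarith)
        have h3 : α * t0 m j = 0 := by linarith
        have h4 : β * t0 m (j + 1) = 0 := by linarith
        have h5 : β = 0 := (mul_eq_zero.1 h4).resolve_right (by linarith)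
        have h6 : det2 (-pB c) z = 0 := by
          rw [hzab, DInv_addr, DInv_smulr, DInv_smulr, det_WW_B, det_WW_B, h5, zero_mul,
            add_zero]
          rcases mul_eq_zero.1 h3 with h7 | h7
          · rw [h7, zero_mul]
          · have h8 : j = 0 := by
              by_contra hne
              have h9 : t0 m 0 < t0 m j := t0_lt m (by omega)
              rw [t0_zero] at h9
              linarith
            rw [h8, tt_zero]
            ring
        linarith
      · exact h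

theorem Fm_Cone {m : ℕ} {c : Par m} (hc : c ∈ CM m) {v : P} (h1 : 0 < v.1) (h2 : 0 < v.2) :
    Fm c v ∈ Cone c := by
  have hq : v ∈ Quad := ⟨h1.le, h2.le⟩
  obtain ⟨j, hj, hvj⟩ := exists_CS m hq
  have hm : (0 : ℝ) < (m : ℝ) + 1 := by positivity
  have hDD := DD_pos hc
  have hr1 := rr_pos hc j
  have hr2 := rr_pos hc (j + 1)
  obtain ⟨a, ha⟩ : ∃ a : ℝ, a = ((m : ℝ) + 1) * (t0 m (j + 1) * (v.1 + v.2) - v.2) := ⟨_, rfl⟩
  obtain ⟨b, hb⟩ : ∃ b : ℝ, b = ((m : ℝ) + 1) * (v.2 - t0 m j * (v.1 + v.2)) := ⟨_, rfl⟩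
  have ha0 : 0 ≤ a := by
    rw [ha]
    exact mul_nonneg hm.le (sub_nonneg.2 hvj.2.2)
  have hb0 : 0 ≤ b := by
    rw [hb]
    exact mul_nonneg hm.le (sub_nonneg.2 hvj.2.1)
  have hab : a + b = v.1 + v.2 := by
    rw [ha, hb, t0_succ]
    field_simp
    ring
  have hz : Fm c v - pB c = a • WW c j + b • WW c (j + 1) := by
    rw [Fm_CS c hj hvj, add_sub_cancel_left, Lj_eq, ha, hb]
  have htj : tt c j < 1 := by
    rw [← tt_last c (Nat.lt_succ_self m)]
    exact tt_lt hc (by omega) le_rfl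
  have htj1 : 0 < tt c (j + 1) := by
    rw [← tt_zero c]
    exact tt_lt hc (by omega) (by omega)
  refine ⟨?_, ?_⟩
  · rw [hz, DInv_addl, DInv_smull, DInv_smull, det_WW_A, det_WW_A]
    have e1 : 0 < rr c j * (1 - tt c j) * DD c :=
      mul_pos (mul_pos hr1 (by linarith)) hDD
    rcases eq_or_lt_of_le hj with h | h
    · have h3 : 0 < a := by
        rw [ha, h, t0_last]
        exact mul_pos hm (by linarith)
      have h4 : rr c (j + 1) * (1 - tt c (j + 1)) * DD c = 0 := by
        rw [h, tt_last c (Nat.lt_succ_self m)]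
        ring
      rw [h4, mul_zero, add_zero]
      exact mul_pos h3 e1
    · have h3 : tt c (j + 1) < 1 := by
        rw [← tt_last c (Nat.lt_succ_self m)]
        exact tt_lt hc (by omega) le_rfl
      have e2 : 0 < rr c (j + 1) * (1 - tt c (j + 1)) * DD c :=
        mul_pos (mul_pos hr2 (by linarith)) hDD
      rcases eq_or_lt_of_le ha0 with h4 | h4
      · have h5 : 0 < b := by linarith
        exact add_pos_of_nonneg_of_pos (mul_nonneg ha0 e1.le) (mul_pos h5 e2)
      · exact add_pos_of_pos_of_nonneg (mul_pos h4 e1) (mul_nonneg hb0 e2.le)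
  · rw [hz, DInv_addr, DInv_smulr, DInv_smulr, det_WW_B, det_WW_B]
    have e2 : 0 < rr c (j + 1) * tt c (j + 1) * DD c := mul_pos (mul_pos hr2 htj1) hDD
    rcases Nat.eq_zero_or_pos j with h | h
    · have h3 : 0 < b := by
        rw [hb, h, t0_zero]
        exact mul_pos hm (by linarith)
      have h4 : rr c j * tt c j * DD c = 0 := by
        rw [h, tt_zero]
        ring
      rw [h4, mul_zero, zero_add]
      exact mul_pos h3 e2
    · have h3 : 0 < tt c j := by
        rw [← tt_zero c]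
        exact tt_lt hc h (by omega)
      have e1 : 0 < rr c j * tt c j * DD c := mul_pos (mul_pos hr1 h3) hDD
      rcases eq_or_lt_of_le ha0 with h4 | h4
      · have h5 : 0 < b := by linarith
        exact add_pos_of_nonneg_of_pos (mul_nonneg ha0 e1.le) (mul_pos h5 e2)
      · exact add_pos_of_pos_of_nonneg (mul_pos h4 e1) (mul_nonneg hb0 e2.le)

open Classical in
/-- The inverse of the fan map. -/
noncomputable def Gm {m : ℕ} (c : Par m) : P → P :=
  if h : c ∈ CM m then Classical.choose (exists_Gm h) else id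

theorem Gm_spec {m : ℕ} {c : Par m} (hc : c ∈ CM m) :
    (∃ K, LipschitzWith K (Gm c)) ∧ (∀ v ∈ Quad, Gm c (Fm c v) = v) ∧
      ∀ y ∈ Cone c, 0 < (Gm c y).1 ∧ 0 < (Gm c y).2 ∧ Fm c (Gm c y) = y := by
  have h : Gm c = Classical.choose (exists_Gm hc) := by simp [Gm, hc]
  rw [h]
  exact Classical.choose_spec (exists_Gm hc)

end Pool.Agent.MP4eed4eP
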