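import Pool.Agent.Lib.MP_4eed4e_an_PC.CBase
import Pool.Agent.Lib.MP_4eed4e_an_PD.DDom

set_option autoImplicit false

/-!
Project P, block D, module DVar: change of variables.

* `disj_Sec`: for `i < j`: `v.2 < t0 (i+1) (v.1+v.2) ≤ t0 j (v.1+v.2) < v.2`.
* `ae_Sec`: a point `v ∈ Tri` is in `CS m j` for some `j ≤ m` (`exists_CS`), hence in `Sec m j`
unless   `v.2 = t0 j (v.1+v.2)` or `v.2 = t0 (j+1) (v.1+v.2)`; these are finitely many lines
  `{v | a v.1 + b v.2 = 0}`, `(a, b) ≠ 0`, null sets (`Measure.addHaar_submodule`, or Fubini).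
* `integral_Tri`: `Tri` is the disjoint union of the `Sec m j` up to a null set
  (`setIntegral_congr_set`, `integral_biUnion_finset` / `integral_finset_biUnion`).
* `integral_Fm_Sec`: on `Sec m j` the map `Fm c` is `v ↦ pB c + Lj c j v`, injective on `Sec m j`
  (`injOn_Fm`), with derivative the linear map `Lj c j`, whose determinant is `Jj c j > 0`
  (`MeasureTheory.integral_image_eq_integral_abs_det_fderiv_smul`; the determinant of a linear map
of   `ℝ × ℝ` via its matrix, or `LinearMap.det` in the basis `Basis.finTwoProd`).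
* `integral_Dom`: `Dom c` is the union of the pairwise disjoint measurable sets `Fm c '' Sec m j`,
up to   the null set contained in the union of the lines `{y | det2 (WW c j) (y - pB c) = 0}`, `j ≤
m + 1`   (`Tri \ ⋃ Sec` consists of the `v` with `v.2 = t0 j (v.1+v.2)`, where `Fm c v - pB c` is a
multiple of   `WW c j ≠ 0`).
* `ae_Fm`: the map `v ↦ pB c + Lj c j v` is an affine isomorphism, so preimages of null sets are
null. * `integrableOn_Fm`: `integrableOn_image_iff_integrableOn_abs_det_fderiv_smul`.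
-/

namespace Pool.Agent.MP4eed4eP

open MeasureTheory Set Filter Topology

/-! ### Lines and the linear maps -/

private theorem DVar_line (a b : ℝ) (h : a ≠ 0 ∨ b ≠ 0) :
    volume {v : P | a * v.1 + b * v.2 = 0} = 0 := by
  have h1 := Measure.addHaar_submodule (volume : Measure P)
    (LinearMap.ker (a • LinearMap.fst ℝ ℝ ℝ + b • LinearMap.snd ℝ ℝ ℝ)) (by
      intro htop
      rcases h with h | h
      · have h2 : ((1 : ℝ), (0 : ℝ)) ∈
            LinearMap.ker (a • LinearMap.fst ℝ ℝ ℝ + b • LinearMap.snd ℝ ℝ ℝ) := by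
          rw [htop]
          exact Submodule.mem_top
        rw [LinearMap.mem_ker] at h2
        simp at h2
        exact h h2
      · have h2 : ((0 : ℝ), (1 : ℝ)) ∈
            LinearMap.ker (a • LinearMap.fst ℝ ℝ ℝ + b • LinearMap.snd ℝ ℝ ℝ) := by
          rw [htop]
          exact Submodule.mem_top
        rw [LinearMap.mem_ker] at h2
        simp at h2
        exact h h2)
  have h3 : {v : P | a * v.1 + b * v.2 = 0} =
      (LinearMap.ker (a • LinearMap.fst ℝ ℝ ℝ + b • LinearMap.snd ℝ ℝ ℝ) : Set P) := by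
    ext v
    rw [SetLike.mem_coe, LinearMap.mem_ker]
    simp
  rw [h3]
  exact h1

private noncomputable def DVarL {m : ℕ} (c : Par m) (j : ℕ) : P →L[ℝ] P :=
  (ContinuousLinearMap.fst ℝ ℝ ℝ).smulRight (La c j) +
    (ContinuousLinearMap.snd ℝ ℝ ℝ).smulRight (Lb c j)

private theorem DVarL_apply {m : ℕ} (c : Par m) (j : ℕ) (v : P) :
    DVarL c j v = Lj c j v := rfl

private theorem DVarL_det' {m : ℕ} (c : Par m) (j : ℕ) :
    LinearMap.det (DVarL c j : P →ₗ[ℝ] P) = Jj c j := by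
  rw [← LinearMap.det_toMatrix (Module.Basis.finTwoProd ℝ), Matrix.det_fin_two]
  simp only [LinearMap.toMatrix_apply, Module.Basis.finTwoProd_zero,
    Module.Basis.finTwoProd_one, Module.Basis.coe_finTwoProd_repr, ContinuousLinearMap.coe_coe,
    DVarL_apply, Lj, Jj, det2]
  simp
  ring

private theorem DVarL_det {m : ℕ} (c : Par m) (j : ℕ) : (DVarL c j).det = Jj c j :=
  DVarL_det' c j

private theorem DVar_deriv {m : ℕ} (c : Par m) {j : ℕ} (hj : j ≤ m) (v : P) (hv : v ∈ Sec m j) :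
    HasFDerivWithinAt (Fm c) (DVarL c j) (Sec m j) v := by
  have h1 : HasFDerivWithinAt (fun w : P => pB c + DVarL c j w) (DVarL c j) (Sec m j) v :=
    ((DVarL c j).hasFDerivAt.const_add (pB c)).hasFDerivWithinAt
  refine h1.congr (fun w hw => ?_) ?_
  · rw [Fm_Sec c hj hw]
    rfl
  · rw [Fm_Sec c hj hv]
    rfl

private theorem DVar_inj {m : ℕ} {c : Par m} (hc : c ∈ CM m) (j : ℕ) :
    InjOn (Fm c) (Sec m j) :=
  (injOn_Fm hc).mono (subset_trans (fun _ h => h.1) Tri_subset_Quad)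

theorem Sec_subset_Tri (m j : ℕ) : Sec m j ⊆ Tri := fun _ h => h.1

theorem measurableSet_Sec (m j : ℕ) : MeasurableSet (Sec m j) := (isOpen_Sec m j).measurableSet

private theorem DVar_disj {m i j : ℕ} (h : i < j) (v : P) (hi : v ∈ Sec m i)
    (hj : v ∈ Sec m j) : False := by
  have h1 := hi.2.2
  have h2 := hj.2.1
  have h3 : 0 < v.1 + v.2 := add_pos hi.1.1 hi.1.2.1
  have h4 : t0 m (i + 1) ≤ t0 m j := by
    rcases eq_or_lt_of_le (Nat.succ_le_of_lt h) with h5 | h5
    · rw [← h5]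
    · exact (t0_lt m h5).le
  have h6 := mul_le_mul_of_nonneg_right h4 h3.le
  linarith

theorem disj_Sec {m i j : ℕ} (h : i ≠ j) : Disjoint (Sec m i) (Sec m j) := by
  rw [Set.disjoint_left]
  intro v hi hj
  rcases lt_or_gt_of_ne h with h1 | h1
  · exact DVar_disj h1 v hi hj
  · exact DVar_disj h1 v hj hi

theorem ae_Sec (m : ℕ) : ∀ᵐ v ∂muT, ∃ j : Fin (m + 1), v ∈ Sec m j := by
  have h1 : ∀ᵐ v : P, ∀ j : ℕ, v.2 ≠ t0 m j * (v.1 + v.2) := by
    rw [ae_all_iff]
    intro j
    have h2 := DVar_line (-t0 m j) (1 - t0 m j) (by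
      by_contra hcon
      push Not at hcon
      have h3 := hcon.1
      have h4 := hcon.2
      linarith)
    rw [ae_iff]
    refine measure_mono_null (fun v hv => ?_) h2
    have h5 : v.2 = t0 m j * (v.1 + v.2) := not_not.1 hv
    show -t0 m j * v.1 + (1 - t0 m j) * v.2 = 0
    linear_combination h5
  filter_upwards [ae_restrict_mem measurableSet_Tri, ae_restrict_of_ae h1] with v hv hne
  obtain ⟨j, hj, hvj⟩ := exists_CS m (Tri_subset_Quad hv)
  exact ⟨⟨j, Nat.lt_succ_of_le hj⟩, hv, lt_of_le_of_ne hvj.2.1 (hne j).symm,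
    lt_of_le_of_ne hvj.2.2 (hne (j + 1))⟩

private theorem DVar_pair (m : ℕ) :
    Pairwise (Function.onFun Disjoint fun j : Fin (m + 1) => Sec m j) := by
  intro i j h
  exact disj_Sec fun h1 => h (Fin.ext h1)

theorem integral_Tri {m : ℕ} (h : P → ℝ) (hi : IntegrableOn h Tri) :
    ∫ v in Tri, h v = ∑ j : Fin (m + 1), ∫ v in Sec m j, h v := by
  have h1 : Tri =ᵐ[volume] ⋃ j : Fin (m + 1), Sec m j := by
    refine Filter.EventuallyLE.antisymm ?_ ?_
    · have h2 := (ae_restrict_iff' measurableSet_Tri).1 (ae_Sec m)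
      filter_upwards [h2] with v hv hvT
      exact Set.mem_iUnion.2 (hv hvT)
    · refine Filter.Eventually.of_forall fun v hv => ?_
      obtain ⟨j, hj⟩ := Set.mem_iUnion.1 hv
      exact hj.1
  rw [setIntegral_congr_set h1]
  exact integral_iUnion_fintype (fun j => measurableSet_Sec m j) (DVar_pair m)
    fun j => hi.mono_set (Sec_subset_Tri m j)

theorem integral_Fm_Sec {m : ℕ} {c : Par m} (hc : c ∈ CM m) {j : ℕ} (hj : j ≤ m) (h : P → ℝ) :
    ∫ y in Fm c '' Sec m j, h y = Jj c j * ∫ v in Sec m j, h (Fm c v) := by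
  rw [integral_image_eq_integral_abs_det_fderiv_smul volume (measurableSet_Sec m j)
    (DVar_deriv c hj) (DVar_inj hc j)]
  simp only [DVarL_det, abs_of_pos (Jj_pos hc hj), smul_eq_mul]
  exact integral_const_mul _ _

theorem integral_Dom {m : ℕ} {c : Par m} (hc : c ∈ CM m) (h : P → ℝ)
    (hi : IntegrableOn h (Dom c)) :
    ∫ y in Dom c, h y = ∑ j : Fin (m + 1), Jj c j * ∫ v in Sec m j, h (Fm c v) := by
  have hsub : ∀ j : Fin (m + 1), Fm c '' Sec m j ⊆ Dom c := fun j =>
    Set.image_mono (Sec_subset_Tri m j)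
  have h1 : Dom c =ᵐ[volume] ⋃ j : Fin (m + 1), Fm c '' Sec m j := by
    refine Filter.EventuallyLE.antisymm ?_ ?_
    · have h2 := (ae_restrict_iff' measurableSet_Tri).1 (ae_Sec m)
      obtain ⟨K, hK⟩ := lipschitz_Fm c
      have h3 : volume {v : P | ¬ (v ∈ Tri → ∃ j : Fin (m + 1), v ∈ Sec m j)} = 0 := h2
      have h4 := hK.hausdorffMeasure_image_le (d := 2) (by norm_num)
        {v : P | ¬ (v ∈ Tri → ∃ j : Fin (m + 1), v ∈ Sec m j)}
      rw [hausdorffMeasure_prod_real, h3, mul_zero] at h4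
      have h5 : ∀ᵐ y : P, y ∉ Fm c '' {v : P | ¬ (v ∈ Tri → ∃ j : Fin (m + 1), v ∈ Sec m j)} := by
        rw [ae_iff]
        simp only [not_not]
        exact le_antisymm h4 zero_le
      filter_upwards [h5] with y hy hyD
      obtain ⟨v, hv, rfl⟩ := hyD
      have h6 : v ∈ Tri → ∃ j : Fin (m + 1), v ∈ Sec m j := by
        by_contra hcon
        exact hy ⟨v, hcon, rfl⟩
      obtain ⟨j, hj⟩ := h6 hv
      exact Set.mem_iUnion.2 ⟨j, v, hj, rfl⟩
    · refine Filter.Eventually.of_forall fun v hv => ?_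
      obtain ⟨j, hj⟩ := Set.mem_iUnion.1 hv
      exact hsub j hj
  have hmeas : ∀ j : Fin (m + 1), MeasurableSet (Fm c '' Sec m j) := fun j =>
    measurable_image_of_fderivWithin (measurableSet_Sec m j)
      (DVar_deriv c (Nat.lt_succ_iff.1 j.2)) (DVar_inj hc j)
  have hpair : Pairwise (Function.onFun Disjoint fun j : Fin (m + 1) => Fm c '' Sec m j) := by
    intro i j hij
    refine Set.disjoint_left.2 ?_
    rintro y ⟨v, hv, rfl⟩ ⟨w, hw, hwv⟩
    have h6 := injOn_Fm hc (Tri_subset_Quad hw.1) (Tri_subset_Quad hv.1) hwv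
    subst h6
    exact Set.disjoint_left.1 (DVar_pair m hij) hv hw
  rw [setIntegral_congr_set h1, integral_iUnion_fintype hmeas hpair
    fun j => hi.mono_set (hsub j)]
  exact Finset.sum_congr rfl fun j _ => integral_Fm_Sec hc (Nat.lt_succ_iff.1 j.2) h

theorem ae_Fm {m : ℕ} {c : Par m} (hc : c ∈ CM m) {j : ℕ} (hj : j ≤ m) {p : P → Prop}
    (hp : ∀ᵐ y : P, p y) : ∀ᵐ v ∂volume.restrict (Sec m j), p (Fm c v) := by
  have h0 : volume {y : P | ¬ p y} = 0 := hp
  have h1 : LinearMap.det (DVarL c j : P →ₗ[ℝ] P) ≠ 0 := by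
    rw [DVarL_det']
    exact (Jj_pos hc hj).ne'
  have h2 := Measure.addHaar_preimage_continuousLinearMap (volume : Measure P) h1
    ((fun y => pB c + y) ⁻¹' {y : P | ¬ p y})
  rw [measure_preimage_add, h0, mul_zero] at h2
  have h3 : ∀ᵐ v : P, p (pB c + DVarL c j v) := h2
  filter_upwards [ae_restrict_mem (measurableSet_Sec m j), ae_restrict_of_ae h3] with v hv hpv
  rw [Fm_Sec c hj hv]
  exact hpv

theorem integrableOn_Fm {m : ℕ} {c : Par m} (hc : c ∈ CM m) {j : ℕ} (hj : j ≤ m) {h : P → ℝ}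
    (hi : IntegrableOn h (Dom c)) : IntegrableOn (fun v => h (Fm c v)) (Sec m j) := by
  have h1 : IntegrableOn h (Fm c '' Sec m j) :=
    hi.mono_set (Set.image_mono (Sec_subset_Tri m j))
  rw [integrableOn_image_iff_integrableOn_abs_det_fderiv_smul volume (measurableSet_Sec m j)
    (DVar_deriv c hj) (DVar_inj hc j)] at h1
  simp only [DVarL_det, abs_of_pos (Jj_pos hc hj), smul_eq_mul] at h1
  have h2 : IntegrableOn (fun v => (Jj c j)⁻¹ * (Jj c j * h (Fm c v))) (Sec m j) :=
    Integrable.const_mul h1 _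
  have h3 := (Jj_pos hc hj).ne'
  simpa only [inv_mul_cancel_left₀ h3] using h2

end Pool.Agent.MP4eed4eP
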